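import Pool.Agent.Lib.MP_745d3a_ag.BS.Gr2
import Pool.Agent.Lib.MP_745d3a_ag.Geometry

/-!
Local bases give freeness of localisations; reflexivity from `Bun`.
-/

set_option autoImplicit false
set_option linter.unusedSectionVars false

open MvPolynomial

namespace Pool.Agent.Lib.MP_745d3a_ag.FM

section LBfree

variable {R M : Type*} [CommRing R] [IsDomain R] [AddCommGroup M] [Module R M]

/-- A basis of the localisation from a local basis. -/
lemma exists_basis_of_LB {p : Ideal R} [p.IsPrime] {m1 m2 : M} (H : LB p m1 m2) :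
    Nonempty (Module.Basis (Fin 2) (Localization.AtPrime p)
      (LocalizedModule p.primeCompl M)) := by
  classical
  set Rp := Localization.AtPrime p
  set Mp := LocalizedModule p.primeCompl M
  set f := LocalizedModule.mkLinearMap p.primeCompl M
  have hp : p.primeCompl ≤ nonZeroDivisors R := Ideal.primeCompl_le_nonZeroDivisors p
  have hs0 : ∀ s : p.primeCompl, (s : R) ≠ 0 := by
    intro s h
    exact s.2 (by rw [h]; exact p.zero_mem)
  have hli : LinearIndependent Rp ![f m1, f m2] := by
    rw [LinearIndependent.pair_iff]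
    intro c1 c2 h
    obtain ⟨⟨a1, t1⟩, ha1⟩ := IsLocalization.surj p.primeCompl c1
    obtain ⟨⟨a2, t2⟩, ha2⟩ := IsLocalization.surj p.primeCompl c2
    simp only at ha1 ha2
    have h1 : f ((a1 * t2) • m1 + (a2 * t1) • m2) = 0 := by
      rw [map_add, map_smul, map_smul, ← algebraMap_smul Rp (a1 * (t2 : R)),
        ← algebraMap_smul Rp (a2 * (t1 : R)), map_mul, map_mul, ← ha1, ← ha2]
      have : (algebraMap R Rp (t1 : R) * algebraMap R Rp (t2 : R)) • (c1 • f m1 + c2 • f m2) = 0 := by
        rw [h, smul_zero]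
      rw [smul_add, smul_smul, smul_smul] at this
      rw [← this]
      congr 2 <;> ring
    obtain ⟨u, hu⟩ := (IsLocalizedModule.eq_zero_iff p.primeCompl f).mp h1
    rw [Submonoid.smul_def, smul_add, smul_smul, smul_smul] at hu
    obtain ⟨h2, h3⟩ := H.ind _ _ hu
    have e1 : a1 = 0 := by
      rcases mul_eq_zero.mp h2 with h4 | h4
      · exact absurd h4 (hs0 u)
      · exact (mul_eq_zero.mp h4).resolve_right (hs0 t2)
    have e2 : a2 = 0 := by
      rcases mul_eq_zero.mp h3 with h4 | h4
      · exact absurd h4 (hs0 u)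
      · exact (mul_eq_zero.mp h4).resolve_right (hs0 t1)
    rw [e1, map_zero] at ha1
    rw [e2, map_zero] at ha2
    exact ⟨(IsLocalization.map_units Rp t1).mul_left_eq_zero.mp ha1,
      (IsLocalization.map_units Rp t2).mul_left_eq_zero.mp ha2⟩
  have hsp : ⊤ ≤ Submodule.span Rp (Set.range ![f m1, f m2]) := by
    intro y _
    rw [Matrix.range_cons, Matrix.range_cons, Matrix.range_empty, Set.union_empty,
      ← Set.insert_eq]
    obtain ⟨⟨m, s⟩, hs⟩ := IsLocalizedModule.surj p.primeCompl f y
    simp only [Submonoid.smul_def] at hs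
    obtain ⟨D, a, b, hD, hab⟩ := H.span m
    have h1 : algebraMap R Rp (D * s) • y = algebraMap R Rp a • f m1 + algebraMap R Rp b • f m2 := by
      rw [algebraMap_smul, algebraMap_smul, algebraMap_smul, mul_smul, hs, ← map_smul, hab,
        map_add, map_smul, map_smul]
    have hunit : IsUnit (algebraMap R Rp (D * s)) :=
      IsLocalization.map_units Rp (⟨D, hD⟩ * s : p.primeCompl)
    obtain ⟨v, hv⟩ := hunit
    have h2 : y = (↑v⁻¹ : Rp) • (algebraMap R Rp a • f m1 + algebraMap R Rp b • f m2) := by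
      rw [← h1, ← hv, smul_smul, Units.inv_mul, one_smul]
    rw [h2]
    exact Submodule.smul_mem _ _ (Submodule.mem_span_pair.mpr ⟨_, _, rfl⟩)
  exact ⟨Module.Basis.mk hli hsp⟩

lemma free_of_LB {p : Ideal R} [p.IsPrime] {m1 m2 : M} (H : LB p m1 m2) :
    Module.Free (Localization.AtPrime p) (LocalizedModule p.primeCompl M) := by
  obtain ⟨b⟩ := exists_basis_of_LB H
  exact Module.Free.of_basis b

lemma finrank_of_LB {p : Ideal R} [p.IsPrime] {m1 m2 : M} (H : LB p m1 m2) :
    Module.finrank R M = 2 := by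
  obtain ⟨b⟩ := exists_basis_of_LB H
  have hp : p.primeCompl ≤ nonZeroDivisors R := Ideal.primeCompl_le_nonZeroDivisors p
  have h1 := Module.finrank_eq_card_basis b
  rw [IsLocalization.finrank_eq (Localization.AtPrime p) p.primeCompl hp,
    IsLocalizedModule.finrank_eq p.primeCompl
      (LocalizedModule.mkLinearMap p.primeCompl M) hp] at h1
  rw [h1, Fintype.card_fin]

end LBfree

section refl

variable {K S ι M : Type*} [Field K] [CommRing S] [Algebra K S] [AddCommGroup M] [Module S M]
  {x : ι → S}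

/-- A `Bun` is reflexive. -/
lemma isReflexive_of_bun (hx : PF.Coord K x) (hM : PF.Bun x M) {i₁ i₂ : ι} (h12 : i₁ ≠ i₂) :
    Module.IsReflexive S M := by
  have := hx.isDomain
  constructor
  constructor
  · rw [injective_iff_map_eq_zero]
    intro m hm
    obtain ⟨s, hs, m₁, m₂, θ₁, θ₂, hθ, -⟩ := PF.Bun.local hx hM ⊥ Ideal.isPrime_bot
      ⟨i₁, by rw [Ideal.mem_bot]; exact (hx.prime_x i₁).ne_zero⟩
    have h1 : θ₁ m = 0 := DFunLike.congr_fun hm θ₁
    have h2 : θ₂ m = 0 := DFunLike.congr_fun hm θ₂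
    have h3 := hθ m
    rw [h1, h2, zero_smul, zero_smul, add_zero] at h3
    exact (hM.tf s m h3).resolve_left hs
  · intro φ
    obtain ⟨m, hm⟩ := PF.Bun.reflexive hx hM h12 φ
    refine ⟨m, ?_⟩
    ext θ
    exact (hm θ).symm

end refl

end Pool.Agent.Lib.MP_745d3a_ag.FM
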