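import Pool.Agent.Lib.MP_745d3a_ag.FM.Base

/-!
Setting one variable of a polynomial ring equal to zero.
-/

set_option autoImplicit false
set_option linter.unusedSectionVars false

open MvPolynomial

namespace Pool.Agent.Lib.MP_745d3a_ag.FM

section ev

variable {σ K : Type*} [Field K]

/-- The variable `none` is set to zero. -/
noncomputable def ev0 : MvPolynomial (Option σ) K →ₐ[K] MvPolynomial σ K :=
  aeval (fun o => o.elim 0 X)

/-- The inclusion of the polynomials without the variable `none`. -/
noncomputable def inc : MvPolynomial σ K →ₐ[K] MvPolynomial (Option σ) K := rename some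

@[simp] lemma ev0_none : ev0 (X none : MvPolynomial (Option σ) K) = 0 := by simp [ev0]

@[simp] lemma ev0_some (i : σ) : ev0 (X (some i) : MvPolynomial (Option σ) K) = X i := by
  simp [ev0]

@[simp] lemma ev0_C (c : K) : ev0 (C c : MvPolynomial (Option σ) K) = C c := by simp [ev0]

@[simp] lemma ev0_inc (a : MvPolynomial σ K) : ev0 (inc a) = a := by
  have : (ev0.comp inc : MvPolynomial σ K →ₐ[K] MvPolynomial σ K) = AlgHom.id K _ := by
    apply MvPolynomial.algHom_ext
    intro i
    simp [inc, rename_X]
  exact DFunLike.congr_fun this a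

@[simp] lemma inc_X (i : σ) : inc (X i : MvPolynomial σ K) = X (some i) := by simp [inc]

lemma exists_of_ev0 (b : MvPolynomial (Option σ) K) : ∃ c, b = inc (ev0 b) + X none * c := by
  induction b using MvPolynomial.induction_on with
  | C c => exact ⟨0, by simp [inc]⟩
  | add p q hp hq =>
    obtain ⟨c, hc⟩ := hp
    obtain ⟨d, hd⟩ := hq
    refine ⟨c + d, ?_⟩
    conv_lhs => rw [hc, hd]
    rw [map_add, map_add]
    ring
  | mul_X p o hp =>
    obtain ⟨c, hc⟩ := hp
    cases o with
    | none => exact ⟨p, by simp [mul_comm]⟩
    | some i =>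
      refine ⟨c * X (some i), ?_⟩
      conv_lhs => rw [hc]
      rw [map_mul, ev0_some, map_mul, inc_X]
      ring

lemma ev0_eq_zero {b : MvPolynomial (Option σ) K} : ev0 b = 0 ↔ X none ∣ b := by
  constructor
  · intro h
    obtain ⟨c, hc⟩ := exists_of_ev0 b
    rw [h, map_zero, zero_add] at hc
    exact ⟨c, hc⟩
  · rintro ⟨c, rfl⟩
    rw [map_mul, ev0_none, zero_mul]

lemma prime_none : Prime (X none : MvPolynomial (Option σ) K) := MvPolynomial.X_prime

lemma relPrime_none {u : MvPolynomial (Option σ) K} (hu : ev0 u ≠ 0) : IsRelPrime u (X none) := by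
  intro d hd1 hd2
  rcases (prime_none.irreducible.dvd_iff).mp hd2 with h1 | h1
  · exact h1
  · exact absurd (h1.dvd.trans hd1) (fun h => hu (ev0_eq_zero.mpr h))

variable {G : Type*} [AddCommGroup G]

lemma ev0_monomial (e : Option σ →₀ ℕ) (c : K) : ev0 (monomial e c) =
    if e none = 0 then monomial e.some c else 0 := by
  classical
  rw [ev0, aeval_monomial, MvPolynomial.algebraMap_eq]
  have h1 : (e.prod fun o k => (o.elim 0 X : MvPolynomial σ K) ^ k) =
      (0 : MvPolynomial σ K) ^ (e none) * e.some.prod (fun i k => (X i : MvPolynomial σ K) ^ k) := by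
    rw [Finsupp.prod_option_index]
    · rfl
    · intro o; simp
    · intro o m n; rw [pow_add]
  rw [h1]
  by_cases h : e none = 0
  · rw [h, pow_zero, one_mul, if_pos rfl, ← monomial_eq]
  · rw [zero_pow h, zero_mul, mul_zero, if_neg h]

lemma weight_option (ω : Option σ → G) (e : Option σ →₀ ℕ) : Finsupp.weight ω e =
    e none • ω none + Finsupp.weight (fun i => ω (some i)) e.some := by
  classical
  rw [Finsupp.weight_apply, Finsupp.weight_apply, Finsupp.sum_option_index]
  · intro o; simp
  · intro o m n; rw [add_smul]

lemma ev0_hom {ω : Option σ → G} {b : MvPolynomial (Option σ) K} {g : G}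
    (hb : IsWeightedHomogeneous ω b g) :
    IsWeightedHomogeneous (fun i => ω (some i)) (ev0 b) g := by
  classical
  rw [← mem_weightedHomogeneousSubmodule, b.as_sum, map_sum]
  apply Submodule.sum_mem
  intro e he
  rw [ev0_monomial]
  split_ifs with h
  · rw [mem_weightedHomogeneousSubmodule]
    apply isWeightedHomogeneous_monomial
    have h1 := hb (mem_support_iff.mp he)
    rw [weight_option, h, zero_smul, zero_add] at h1
    exact h1
  · exact Submodule.zero_mem _

lemma inc_hom {ω : Option σ → G} {a : MvPolynomial σ K} {g : G}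
    (ha : IsWeightedHomogeneous (fun i => ω (some i)) a g) :
    IsWeightedHomogeneous ω (inc a) g := by
  classical
  rw [← mem_weightedHomogeneousSubmodule, a.as_sum, map_sum]
  apply Submodule.sum_mem
  intro e he
  rw [mem_weightedHomogeneousSubmodule]
  rw [inc, rename_monomial]
  apply isWeightedHomogeneous_monomial
  have h1 := ha (mem_support_iff.mp he)
  rw [← h1, Finsupp.weight_apply, Finsupp.weight_apply, Finsupp.sum_mapDomain_index]
  · intro o; simp
  · intro o m n; rw [add_smul]

lemma ev0_whc [DecidableEq G] (ω : Option σ → G) (g : G) (b : MvPolynomial (Option σ) K) :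
    ev0 (weightedHomogeneousComponent ω g b) =
      weightedHomogeneousComponent (fun i => ω (some i)) g (ev0 b) := by
  classical
  induction b using MvPolynomial.induction_on' with
  | monomial e c =>
    have h1 : IsWeightedHomogeneous ω (monomial e c) (Finsupp.weight ω e) :=
      isWeightedHomogeneous_monomial ω e c rfl
    have h2 := ev0_hom h1
    rw [weightedHomogeneousComponent_of_mem (m := g) (n := Finsupp.weight ω e)
      ((mem_weightedHomogeneousSubmodule K ω _ _).mpr h1),
      weightedHomogeneousComponent_of_mem (m := g) (n := Finsupp.weight ω e)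
      ((mem_weightedHomogeneousSubmodule K _ _ _).mpr h2)]
    split_ifs <;> simp
  | add p q hp hq => rw [map_add, map_add, hp, hq, map_add, map_add]

end ev

end Pool.Agent.Lib.MP_745d3a_ag.FM
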