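import Pool.Agent.Lib.MP_745d3a_ag.FM.Frame

/-!
The saturated special fibre is a reflexive module of rank two, free outside the origin.
-/

set_option autoImplicit false
set_option linter.unusedSectionVars false

open MvPolynomial

namespace Pool.Agent.Lib.MP_745d3a_ag.FM

section fibre

variable {σ K R G : Type*} [Field K] [AddCommGroup R] [Module (MvPolynomial (Option σ) K) R]
  [AddCommGroup G] [DecidableEq G] {ω : Option σ → G} {𝓡 : G → AddSubgroup R}
  {a₁ a₂ : G} {φ₁ φ₂ : R →ₗ[MvPolynomial (Option σ) K] MvPolynomial (Option σ) K}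
  {u : MvPolynomial (Option σ) K} {e₁ e₂ : R}

/-- Local structure of the special fibre. -/
lemma local_Mz (hR : PF.Bun (fun i : σ => (X (some i) : MvPolynomial (Option σ) K)) R)
    (F : Frm ω 𝓡 a₁ a₂ φ₁ φ₂ u e₁ e₂) (p : Ideal (MvPolynomial σ K)) (hp : p.IsPrime)
    (hi : ∃ i, (X i : MvPolynomial σ K) ∉ p) :
    ∃ s, s ∉ p ∧ ∃ y₁ ∈ Mz φ₁ φ₂, ∃ y₂ ∈ Mz φ₁ φ₂,
      (∀ y ∈ Mz φ₁ φ₂, ∃ a b : MvPolynomial σ K, s • y = a • y₁ + b • y₂) ∧
      ∀ a b : MvPolynomial σ K, a • y₁ + b • y₂ = 0 → a = 0 ∧ b = 0 := by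
  obtain ⟨i, hi⟩ := hi
  set P : Ideal (MvPolynomial (Option σ) K) :=
    p.comap (ev0 : MvPolynomial (Option σ) K →ₐ[K] MvPolynomial σ K).toRingHom with hPdef
  have hP : P.IsPrime := Ideal.comap_isPrime _ _
  have hmem : ∀ b, b ∈ P ↔ ev0 b ∈ p := fun b => Iff.rfl
  obtain ⟨s, hs, m₁, m₂, hspan, hind⟩ := hR.lf P hP ⟨i, by
    show (X (some i) : MvPolynomial (Option σ) K) ∉ P
    rw [hmem, ev0_some]; exact hi⟩
  refine ⟨ev0 s, hs, pr φ₁ φ₂ m₁, ⟨m₁, rfl⟩, pr φ₁ φ₂ m₂, ⟨m₂, rfl⟩, ?_, ?_⟩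
  · rintro _ ⟨m, rfl⟩
    obtain ⟨a, b, hab⟩ := hspan m
    exact ⟨ev0 a, ev0 b, by rw [← pr_smul, hab, map_add, pr_smul, pr_smul]⟩
  · intro a b hab
    have h1 : pr φ₁ φ₂ (inc a • m₁ + inc b • m₂) = 0 := by
      rw [map_add, pr_smul, pr_smul, ev0_inc, ev0_inc, hab]
    obtain ⟨k, hk⟩ := pr_ker hR F h1
    obtain ⟨c, d, hcd⟩ := hspan k
    have h2 : (s * inc a - X none * c) • m₁ + (s * inc b - X none * d) • m₂ = 0 := by
      have e1 : s • (inc a • m₁ + inc b • m₂) =
          (X none : MvPolynomial (Option σ) K) • (c • m₁ + d • m₂) := by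
        rw [hk, smul_comm, hcd]
      rw [sub_smul, sub_smul, mul_smul, mul_smul, mul_smul, mul_smul]
      rw [smul_add, smul_add] at e1
      rw [show s • inc a • m₁ - (X none : MvPolynomial (Option σ) K) • c • m₁ +
          (s • inc b • m₂ - (X none : MvPolynomial (Option σ) K) • d • m₂) =
          (s • inc a • m₁ + s • inc b • m₂) - ((X none : MvPolynomial (Option σ) K) • c • m₁ +
          (X none : MvPolynomial (Option σ) K) • d • m₂) by abel, e1, sub_self]
    obtain ⟨h3, h4⟩ := hind _ _ h2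
    have hs0 : ev0 s ≠ 0 := fun h => hs (by rw [hmem, h]; exact p.zero_mem)
    have key : ∀ a c : MvPolynomial _ K, s * inc a - X none * c = 0 → a = 0 := by
      intro a c h
      have h5 := congrArg ev0 h
      rw [map_sub, map_mul, map_mul, ev0_none, zero_mul, sub_zero, map_zero, ev0_inc] at h5
      exact (mul_eq_zero.mp h5).resolve_left hs0
    exact ⟨key _ _ h3, key _ _ h4⟩

/-- Local bases of the saturated special fibre. -/
lemma LB_hull (hR : PF.Bun (fun i : σ => (X (some i) : MvPolynomial (Option σ) K)) R)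
    (F : Frm ω 𝓡 a₁ a₂ φ₁ φ₂ u e₁ e₂) (p : Ideal (MvPolynomial σ K)) (hp : p.IsPrime)
    (hi : ∃ i, (X i : MvPolynomial σ K) ∉ p) :
    ∃ y₁ y₂ : hull (Mz φ₁ φ₂), LB p y₁ y₂ := by
  obtain ⟨s, hs, y₁, hy₁, y₂, hy₂, hspan, hind⟩ := local_Mz hR F p hp hi
  obtain ⟨i, hi⟩ := hi
  refine ⟨⟨y₁, le_hull _ hy₁⟩, ⟨y₂, le_hull _ hy₂⟩, ?_, ?_⟩
  · intro a b h
    exact hind a b (congrArg Subtype.val h)
  · rintro ⟨y, hy⟩
    obtain ⟨N, hN⟩ := hy i
    obtain ⟨a, b, hab⟩ := hspan _ hN
    refine ⟨s * X i ^ N, a, b, ?_, ?_⟩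
    · intro h
      rcases hp.mem_or_mem h with h1 | h1
      · exact hs h1
      · exact hi (hp.mem_of_pow_mem _ h1)
    · apply Subtype.ext
      show (s * X i ^ N) • y = a • y₁ + b • y₂
      rw [mul_smul, hab]

/-- The saturated special fibre. -/
theorem bun_hull [Finite σ]
    (hR : PF.Bun (fun i : σ => (X (some i) : MvPolynomial (Option σ) K)) R)
    (F : Frm ω 𝓡 a₁ a₂ φ₁ φ₂ u e₁ e₂) :
    PF.Bun (X : σ → MvPolynomial σ K) (hull (Mz φ₁ φ₂)) := by
  refine bun_of_LB _ ?_ ?_ ?_ (fun p hp hi => LB_hull hR F p hp hi)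
  · have : IsNoetherian (MvPolynomial σ K) (MvPolynomial σ K × MvPolynomial σ K) := inferInstance
    exact Module.Finite.of_fg (IsNoetherian.noetherian _)
  · intro a m h
    by_cases ha : a = 0
    · exact Or.inl ha
    · right
      have h1 : a • m.1 = 0 := congrArg Subtype.val h
      apply Subtype.ext
      rw [Prod.ext_iff] at h1
      apply Prod.ext
      · exact (mul_eq_zero.mp h1.1).resolve_left ha
      · exact (mul_eq_zero.mp h1.2).resolve_left ha
  · intro a b hab m n h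
    by_cases hb : b = 0
    · subst hb
      rw [isRelPrime_zero_right] at hab
      rw [zero_smul] at h
      refine ⟨0, ?_⟩
      rw [smul_zero]
      obtain ⟨v, hv⟩ := hab
      rw [← hv] at h
      have := congrArg (fun z => (↑v⁻¹ : MvPolynomial σ K) • z) h
      simpa [smul_smul] using this
    · have h1 : a • m.1 = b • n.1 := congrArg Subtype.val h
      rw [Prod.ext_iff] at h1
      obtain ⟨h2, h3⟩ := h1
      simp only [Prod.smul_fst, Prod.smul_snd, smul_eq_mul] at h2 h3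
      obtain ⟨c, hc⟩ : b ∣ m.1.1 := hab.symm.dvd_of_dvd_mul_left ⟨_, h2⟩
      obtain ⟨d, hd⟩ : b ∣ m.1.2 := hab.symm.dvd_of_dvd_mul_left ⟨_, h3⟩
      have hk : m.1 = b • ((c, d) : MvPolynomial σ K × MvPolynomial σ K) := by
        apply Prod.ext
        · exact hc
        · exact hd
      have hn : n.1 = a • ((c, d) : MvPolynomial σ K × MvPolynomial σ K) := by
        apply Prod.ext
        · apply mul_left_cancel₀ hb
          show b * n.1.1 = b * (a * c)
          rw [← h2, hc]; ring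
        · apply mul_left_cancel₀ hb
          show b * n.1.2 = b * (a * d)
          rw [← h3, hd]; ring
      refine ⟨⟨(c, d), ?_⟩, Subtype.ext hk⟩
      intro i
      let J : Ideal (MvPolynomial σ K) :=
        { carrier := {f | f • ((c, d) : MvPolynomial σ K × MvPolynomial σ K) ∈ Mz φ₁ φ₂}
          add_mem' := by
            intro f g hf hg
            show (f + g) • ((c, d) : MvPolynomial σ K × MvPolynomial σ K) ∈ Mz φ₁ φ₂
            rw [add_smul]; exact Submodule.add_mem _ hf hg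
          zero_mem' := by
            show (0 : MvPolynomial σ K) • ((c, d) : MvPolynomial σ K × MvPolynomial σ K) ∈ Mz φ₁ φ₂
            rw [zero_smul]; exact Submodule.zero_mem _
          smul_mem' := by
            intro f g hg
            show (f • g) • ((c, d) : MvPolynomial σ K × MvPolynomial σ K) ∈ Mz φ₁ φ₂
            rw [smul_assoc]; exact Submodule.smul_mem _ _ hg }
      refine PF.pow_mem_of_prime J (X i) ?_
      intro p hp hi hle
      obtain ⟨s, hs, y₁, hy₁, y₂, hy₂, hspan, hind⟩ := local_Mz hR F p hp ⟨i, hi⟩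
      obtain ⟨N, hN⟩ := m.2 i
      obtain ⟨N', hN'⟩ := n.2 i
      have hM1 : (X i : MvPolynomial σ K) ^ (N + N') • m.1 ∈ Mz φ₁ φ₂ := by
        rw [pow_add, mul_comm, mul_smul]
        exact Submodule.smul_mem _ _ hN
      have hM2 : (X i : MvPolynomial σ K) ^ (N + N') • n.1 ∈ Mz φ₁ φ₂ := by
        rw [pow_add, mul_smul]
        exact Submodule.smul_mem _ _ hN'
      obtain ⟨α₁, β₁, k1⟩ := hspan _ hM1
      obtain ⟨α₂, β₂, k2⟩ := hspan _ hM2
      have k3 : (a * α₁ - b * α₂) • y₁ + (a * β₁ - b * β₂) • y₂ = 0 := by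
        have e1 : a • (s • (X i : MvPolynomial σ K) ^ (N + N') • m.1) =
            b • (s • (X i : MvPolynomial σ K) ^ (N + N') • n.1) := by
          rw [hk, hn]
          simp only [smul_smul]
          congr 1
          ring
        rw [k1, k2, smul_add, smul_add] at e1
        rw [sub_smul, sub_smul, mul_smul, mul_smul, mul_smul, mul_smul,
          show a • α₁ • y₁ - b • α₂ • y₁ + (a • β₁ • y₂ - b • β₂ • y₂) =
            (a • α₁ • y₁ + a • β₁ • y₂) - (b • α₂ • y₁ + b • β₂ • y₂) by abel, e1, sub_self]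
      obtain ⟨k4, k5⟩ := hind _ _ k3
      obtain ⟨γ, hγ⟩ : b ∣ α₁ := hab.symm.dvd_of_dvd_mul_left ⟨_, sub_eq_zero.mp k4⟩
      obtain ⟨δ, hδ⟩ : b ∣ β₁ := hab.symm.dvd_of_dvd_mul_left ⟨_, sub_eq_zero.mp k5⟩
      have k6 : (s * X i ^ (N + N')) • ((c, d) : MvPolynomial σ K × MvPolynomial σ K) =
          γ • y₁ + δ • y₂ := by
        have e1 : b • ((s * X i ^ (N + N')) • ((c, d) : MvPolynomial σ K × MvPolynomial σ K)) =
            b • (γ • y₁ + δ • y₂) := by
          rw [smul_comm, ← hk, mul_smul, k1, hγ, hδ, smul_add, mul_smul, mul_smul]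
        rw [Prod.ext_iff] at e1
        apply Prod.ext
        · exact mul_left_cancel₀ hb e1.1
        · exact mul_left_cancel₀ hb e1.2
      have k7 : s * X i ^ (N + N') ∈ J := by
        show (s * X i ^ (N + N')) • ((c, d) : MvPolynomial σ K × MvPolynomial σ K) ∈ Mz φ₁ φ₂
        rw [k6]
        exact Submodule.add_mem _ (Submodule.smul_mem _ _ hy₁) (Submodule.smul_mem _ _ hy₂)
      rcases hp.mem_or_mem (hle k7) with h7 | h7
      · exact hs h7
      · exact hi (hp.mem_of_pow_mem _ h7)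

end fibre

end Pool.Agent.Lib.MP_745d3a_ag.FM
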