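import Pool.Agent.Lib.MP_745d3a_ag.FM.Grade

/-!
The special fibre of a family of rank two modules, embedded in `A × A`.
-/

set_option autoImplicit false
set_option linter.unusedSectionVars false

open MvPolynomial

namespace Pool.Agent.Lib.MP_745d3a_ag.FM

section bun

variable {S M ι : Type*} [CommRing S] [IsDomain S] [AddCommGroup M] [Module S M]

/-- A local basis has a uniform denominator. -/
lemma uniform_of_LB [Module.Finite S M] {p : Ideal S} [hp : p.IsPrime] {m₁ m₂ : M}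
    (H : LB p m₁ m₂) : ∃ s, s ∉ p ∧ ∀ m, ∃ a b : S, s • m = a • m₁ + b • m₂ := by
  classical
  obtain ⟨G, hG⟩ := Module.Finite.fg_top (R := S) (M := M)
  choose d a c hd hdm using H.span
  refine ⟨∏ g ∈ G, d g, ?_, ?_⟩
  · intro hmem
    obtain ⟨g, _, hg⟩ := (hp.prod_mem_iff (s := G) (x := d)).mp hmem
    exact hd g hg
  · intro m
    have hm : m ∈ Submodule.span S (G : Set M) := by rw [hG]; trivial
    have h1 : Submodule.span S (G : Set M) ≤
        (Submodule.span S {m₁, m₂}).comap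
          ((∏ g ∈ G, d g) • (LinearMap.id : M →ₗ[S] M)) := by
      rw [Submodule.span_le]
      intro g hg
      show (∏ g ∈ G, d g) • g ∈ Submodule.span S {m₁, m₂}
      rw [← Finset.prod_erase_mul G d hg, mul_smul, hdm]
      exact Submodule.smul_mem _ _ (Submodule.mem_span_pair.mpr ⟨_, _, rfl⟩)
    obtain ⟨a, c, hac⟩ := Submodule.mem_span_pair.mp (h1 hm)
    exact ⟨a, c, hac.symm⟩

lemma bun_of_LB (x : ι → S) (hfin : Module.Finite S M)
    (htf : ∀ (a : S) (m : M), a • m = 0 → a = 0 ∨ m = 0)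
    (hht : ∀ a b : S, IsRelPrime a b → ∀ m n : M, a • m = b • n → ∃ k, m = b • k)
    (hlf : ∀ p : Ideal S, p.IsPrime → (∃ i, x i ∉ p) → ∃ m₁ m₂ : M, LB p m₁ m₂) :
    PF.Bun x M where
  fin := hfin
  tf := htf
  ht := hht
  lf := by
    intro p hp hi
    obtain ⟨m₁, m₂, H⟩ := hlf p hp hi
    obtain ⟨s, hs, h⟩ := uniform_of_LB H
    exact ⟨s, hs, m₁, m₂, h, H.ind⟩

/-- Reflexive modules which are free at the primes not containing all `x i`. -/
lemma bun_of_reflexive {τ K : Type*} [Field K] {M : Type*} [AddCommGroup M]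
    [Module (MvPolynomial τ K) M] [Module.Finite (MvPolynomial τ K) M]
    [Module.IsReflexive (MvPolynomial τ K) M] (x : ι → MvPolynomial τ K)
    (hrank : Module.finrank (MvPolynomial τ K) M = 2)
    (hfree : ∀ (p : Ideal (MvPolynomial τ K)) [p.IsPrime], (∃ i, x i ∉ p) →
        Module.Free (Localization.AtPrime p) (LocalizedModule p.primeCompl M)) :
    PF.Bun x M := by
  refine bun_of_LB x inferInstance torsionfree_of_reflexive ?_ ?_
  · intro a b hab m n h
    by_cases hb : b = 0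
    · subst hb
      rw [isRelPrime_zero_right] at hab
      rw [zero_smul] at h
      refine ⟨0, ?_⟩
      rw [smul_zero]
      exact (torsionfree_of_reflexive _ _ h).resolve_left hab.ne_zero
    · obtain ⟨k, hk, _⟩ := hartogs (M := M) hb (fun h h' => hab.symm.dvd_of_dvd_mul_left h') h
      exact ⟨k, hk⟩
  · intro p hp hi
    exact exists_LB (M := M) p (hfree p hi) hrank

end bun

section frame

variable {σ K R G : Type*} [Field K] [AddCommGroup R] [Module (MvPolynomial (Option σ) K) R]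
  [AddCommGroup G] [DecidableEq G] (ω : Option σ → G) (𝓡 : G → AddSubgroup R)

/-- Homogeneous coordinates of the family with a denominator prime to `X none`. -/
structure Frm (a₁ a₂ : G) (φ₁ φ₂ : R →ₗ[MvPolynomial (Option σ) K] MvPolynomial (Option σ) K)
    (u : MvPolynomial (Option σ) K) (e₁ e₂ : R) : Prop where
  u0 : ev0 u ≠ 0
  eq : ∀ m, u • m = φ₁ m • e₁ + φ₂ m • e₂
  ind : ∀ a b : MvPolynomial (Option σ) K, a • e₁ + b • e₂ = 0 → a = 0 ∧ b = 0
  h1 : ∀ g, ∀ m ∈ 𝓡 g, IsWeightedHomogeneous ω (φ₁ m) (g + a₁)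
  h2 : ∀ g, ∀ m ∈ 𝓡 g, IsWeightedHomogeneous ω (φ₂ m) (g + a₂)

/-- Existence of homogeneous coordinates. -/
lemma exists_frm [Nonempty σ] [DirectSum.Decomposition 𝓡]
    [SetLike.GradedSMul (weightedHomogeneousSubmodule K ω) 𝓡]
    (hR : PF.Bun (fun i : σ => (X (some i) : MvPolynomial (Option σ) K)) R) :
    ∃ a₁ a₂ φ₁ φ₂ u e₁ e₂, Frm (K := K) ω 𝓡 a₁ a₂ φ₁ φ₂ u e₁ e₂ := by
  classical
  have hfin := hR.fin
  obtain ⟨i⟩ := ‹Nonempty σ›
  set p : Ideal (MvPolynomial (Option σ) K) :=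
    RingHom.ker (ev0 : MvPolynomial (Option σ) K →ₐ[K] MvPolynomial σ K) with hpdef
  have hp : p.IsPrime := RingHom.ker_isPrime _
  have hmem : ∀ b, b ∈ p ↔ ev0 b = 0 := fun b => RingHom.mem_ker
  have hi : (X (some i) : MvPolynomial (Option σ) K) ∉ p := by
    rw [hmem, ev0_some]; exact X_ne_zero i
  obtain ⟨s, hs, m₁, m₂, hspan, hind⟩ := hR.lf p hp ⟨i, hi⟩
  have H0 : LB p m₁ m₂ := ⟨hind, fun m => by
    obtain ⟨a, b, hab⟩ := hspan m
    exact ⟨s, a, b, hs, hab⟩⟩
  obtain ⟨g₁, g₂, e₁, he₁, e₂, he₂, H⟩ := H0.homogeneous 𝓡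
  obtain ⟨u₀, hu₀, hu⟩ := uniform_of_LB H
  obtain ⟨g, hg⟩ : ∃ g, ev0 (weightedHomogeneousComponent ω g u₀) ≠ 0 := by
    by_contra hcon
    push Not at hcon
    apply hu₀
    rw [hmem]
    ext e
    have h1 := hcon (Finsupp.weight (fun i => ω (some i)) e)
    rw [ev0_whc] at h1
    have h2 := congrArg (coeff e) h1
    rw [coeff_weightedHomogeneousComponent, if_pos rfl] at h2
    exact h2
  set u := weightedHomogeneousComponent ω g u₀ with hudef
  have hall : ∀ m : R, ∃ a b : MvPolynomial (Option σ) K, u • m = a • e₁ + b • e₂ := by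
    intro m
    refine hom_induction 𝓡 (P := fun m => ∃ a b : MvPolynomial (Option σ) K,
      u • m = a • e₁ + b • e₂) ⟨0, 0, by simp⟩ ?_ ?_ m
    · intro h m hm
      obtain ⟨a, b, hab⟩ := hu m
      have h1 := congrArg (comp 𝓡 (g + h)) hab
      rw [comp_add, comp_smul ω 𝓡 hm, comp_smul ω 𝓡 he₁, comp_smul ω 𝓡 he₂,
        add_sub_cancel_right] at h1
      exact ⟨_, _, h1⟩
    · rintro m n ⟨a, b, h⟩ ⟨a', b', h'⟩
      refine ⟨a + a', b + b', ?_⟩
      rw [smul_add, h, h', add_smul, add_smul]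
      abel
  choose A B hAB using hall
  have huniq : ∀ a b a' b' : MvPolynomial (Option σ) K,
      a • e₁ + b • e₂ = a' • e₁ + b' • e₂ → a = a' ∧ b = b' := by
    intro a b a' b' h
    have h1 := H.ind (a - a') (b - b') (by
      rw [sub_smul, sub_smul]
      rw [show a • e₁ - a' • e₁ + (b • e₂ - b' • e₂)
        = (a • e₁ + b • e₂) - (a' • e₁ + b' • e₂) by abel, h, sub_self])
    exact ⟨sub_eq_zero.mp h1.1, sub_eq_zero.mp h1.2⟩
  have hadd : ∀ m n, A (m + n) = A m + A n ∧ B (m + n) = B m + B n := by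
    intro m n
    apply huniq
    rw [← hAB, smul_add, hAB m, hAB n, add_smul, add_smul]
    abel
  have hsmul : ∀ (c : MvPolynomial (Option σ) K) (m : R), A (c • m) = c * A m ∧
      B (c • m) = c * B m := by
    intro c m
    apply huniq
    rw [← hAB, smul_comm u c m, hAB m, smul_add, smul_smul, smul_smul]
  refine ⟨g - g₁, g - g₂,
    { toFun := A, map_add' := fun m n => (hadd m n).1, map_smul' := fun c m => (hsmul c m).1 },
    { toFun := B, map_add' := fun m n => (hadd m n).2, map_smul' := fun c m => (hsmul c m).2 },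
    u, e₁, e₂, hg, hAB, H.ind, ?_, ?_⟩
  · intro h m hm
    have h1 : u • m ∈ 𝓡 (g + h) :=
      smul_mem' ω 𝓡 (weightedHomogeneousComponent_isWeightedHomogeneous _ _) hm
    rw [hAB m] at h1
    have h2 := (hom_of_pair ω 𝓡 he₁ he₂ H.ind h1).1
    rwa [show g + h - g₁ = h + (g - g₁) by abel] at h2
  · intro h m hm
    have h1 : u • m ∈ 𝓡 (g + h) :=
      smul_mem' ω 𝓡 (weightedHomogeneousComponent_isWeightedHomogeneous _ _) hm
    rw [hAB m] at h1
    have h2 := (hom_of_pair ω 𝓡 he₁ he₂ H.ind h1).2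
    rwa [show g + h - g₂ = h + (g - g₂) by abel] at h2

/-- The projection to the special fibre. -/
noncomputable def pr (φ₁ φ₂ : R →ₗ[MvPolynomial (Option σ) K] MvPolynomial (Option σ) K) :
    R →+ MvPolynomial σ K × MvPolynomial σ K where
  toFun m := (ev0 (φ₁ m), ev0 (φ₂ m))
  map_zero' := by simp
  map_add' m n := by simp

variable {φ₁ φ₂ : R →ₗ[MvPolynomial (Option σ) K] MvPolynomial (Option σ) K}

lemma pr_apply (m : R) : pr φ₁ φ₂ m = (ev0 (φ₁ m), ev0 (φ₂ m)) := rfl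

lemma pr_smul (b : MvPolynomial (Option σ) K) (m : R) :
    pr φ₁ φ₂ (b • m) = ev0 b • pr φ₁ φ₂ m := by
  simp [pr_apply]

lemma pr_none (m : R) : pr φ₁ φ₂ ((X none : MvPolynomial (Option σ) K) • m) = 0 := by
  rw [pr_smul, ev0_none, zero_smul]

variable {ω 𝓡}

lemma pr_ker {a₁ a₂ : G} {u : MvPolynomial (Option σ) K} {e₁ e₂ : R}
    (hR : PF.Bun (fun i : σ => (X (some i) : MvPolynomial (Option σ) K)) R)
    (F : Frm ω 𝓡 a₁ a₂ φ₁ φ₂ u e₁ e₂) {m : R} (hm : pr φ₁ φ₂ m = 0) :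
    ∃ k, m = (X none : MvPolynomial (Option σ) K) • k := by
  rw [pr_apply, Prod.mk_eq_zero, ev0_eq_zero, ev0_eq_zero] at hm
  obtain ⟨⟨c, hc⟩, ⟨d, hd⟩⟩ := hm
  have h1 : u • m = (X none : MvPolynomial (Option σ) K) • (c • e₁ + d • e₂) := by
    rw [F.eq, hc, hd, smul_add, mul_smul, mul_smul]
  exact hR.ht u (X none) (relPrime_none F.u0) _ _ h1

/-- The image of the family in `A × A`. -/
noncomputable def Mz (φ₁ φ₂ : R →ₗ[MvPolynomial (Option σ) K] MvPolynomial (Option σ) K) :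
    Submodule (MvPolynomial σ K) (MvPolynomial σ K × MvPolynomial σ K) where
  carrier := Set.range (pr φ₁ φ₂)
  add_mem' := by
    rintro _ _ ⟨m, rfl⟩ ⟨n, rfl⟩
    exact ⟨m + n, map_add _ _ _⟩
  zero_mem' := ⟨0, map_zero _⟩
  smul_mem' := by
    rintro a _ ⟨m, rfl⟩
    exact ⟨inc a • m, by rw [pr_smul, ev0_inc]⟩

lemma mem_Mz {y : MvPolynomial σ K × MvPolynomial σ K} :
    y ∈ Mz φ₁ φ₂ ↔ ∃ m, pr φ₁ φ₂ m = y := Iff.rfl

/-- The saturation of a submodule of `A × A`. -/
def hull (F : Submodule (MvPolynomial σ K) (MvPolynomial σ K × MvPolynomial σ K)) :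
    Submodule (MvPolynomial σ K) (MvPolynomial σ K × MvPolynomial σ K) where
  carrier := {y | ∀ i : σ, ∃ N : ℕ, (X i : MvPolynomial σ K) ^ N • y ∈ F}
  add_mem' := by
    intro y z hy hz i
    obtain ⟨N, hN⟩ := hy i
    obtain ⟨N', hN'⟩ := hz i
    refine ⟨N + N', ?_⟩
    rw [smul_add]
    refine F.add_mem ?_ ?_
    · rw [pow_add, mul_comm, mul_smul]
      exact F.smul_mem _ hN
    · rw [pow_add, mul_smul]
      exact F.smul_mem _ hN'
  zero_mem' := fun i => ⟨0, by simp⟩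
  smul_mem' := by
    intro a y hy i
    obtain ⟨N, hN⟩ := hy i
    refine ⟨N, ?_⟩
    rw [smul_comm]
    exact F.smul_mem _ hN

lemma mem_hull {F : Submodule (MvPolynomial σ K) (MvPolynomial σ K × MvPolynomial σ K)}
    {y : MvPolynomial σ K × MvPolynomial σ K} :
    y ∈ hull F ↔ ∀ i : σ, ∃ N : ℕ, (X i : MvPolynomial σ K) ^ N • y ∈ F := Iff.rfl

lemma le_hull (F : Submodule (MvPolynomial σ K) (MvPolynomial σ K × MvPolynomial σ K)) :
    F ≤ hull F := fun y hy i => ⟨0, by simpa using hy⟩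

lemma pairHom_Mz [Fintype σ] [DirectSum.Decomposition 𝓡]
    [SetLike.GradedSMul (weightedHomogeneousSubmodule K ω) 𝓡]
    {a₁ a₂ : G} {u : MvPolynomial (Option σ) K} {e₁ e₂ : R}
    (F : Frm ω 𝓡 a₁ a₂ φ₁ φ₂ u e₁ e₂) :
    PairHom (fun i => ω (some i)) a₁ a₂ (Mz φ₁ φ₂) := by
  rintro _ ⟨m, rfl⟩ g
  refine ⟨comp 𝓡 g m, ?_⟩
  rw [pr_apply, pr_apply]
  refine hom_induction 𝓡 (P := fun m => (ev0 (φ₁ (comp 𝓡 g m)), ev0 (φ₂ (comp 𝓡 g m))) =
    ((weightedHomogeneousComponent (fun i => ω (some i)) (g + a₁)) (ev0 (φ₁ m)),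
      (weightedHomogeneousComponent (fun i => ω (some i)) (g + a₂)) (ev0 (φ₂ m)))) ?_ ?_ ?_ m
  · rw [comp_zero]; simp
  · intro h m hm
    have k1 := ev0_hom (F.h1 h m hm)
    have k2 := ev0_hom (F.h2 h m hm)
    by_cases hgh : h = g
    · subst hgh
      rw [comp_same 𝓡 hm]
      apply Prod.ext
      · exact ((weightedHomogeneousComponent_of_mem k1).trans (if_pos rfl)).symm
      · exact ((weightedHomogeneousComponent_of_mem k2).trans (if_pos rfl)).symm
    · rw [comp_ne 𝓡 hm hgh, map_zero, map_zero, map_zero]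
      apply Prod.ext
      · refine ((weightedHomogeneousComponent_of_mem k1).trans (if_neg ?_)).symm
        intro h1; exact hgh (by simpa using h1.symm)
      · refine ((weightedHomogeneousComponent_of_mem k2).trans (if_neg ?_)).symm
        intro h1; exact hgh (by simpa using h1.symm)
  · intro m n hm hn
    rw [comp_add, map_add, map_add, map_add, map_add, map_add, map_add, map_add, map_add, map_add,
      map_add]
    simp only [Prod.mk.injEq] at hm hn ⊢
    exact ⟨by rw [← hm.1, ← hn.1], by rw [← hm.2, ← hn.2]⟩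

lemma pairHom_hull [Fintype σ] {ω' : σ → G} {a₁ a₂ : G}
    {F : Submodule (MvPolynomial σ K) (MvPolynomial σ K × MvPolynomial σ K)}
    (hF : PairHom ω' a₁ a₂ F) : PairHom ω' a₁ a₂ (hull F) := by
  classical
  intro y hy g i
  obtain ⟨N, hN⟩ := hy i
  refine ⟨N, ?_⟩
  have hX : IsWeightedHomogeneous ω' ((X i : MvPolynomial σ K) ^ N) (N • ω' i) :=
    (isWeightedHomogeneous_X K ω' i).pow N
  have h1 := hF _ hN (g + N • ω' i)
  have e1 := wHC_mul_right (F := y.1) hX (g + a₁)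
  have e2 := wHC_mul_right (F := y.2) hX (g + a₂)
  have e3 : ∀ a : G, g + N • ω' i + a = g + a + N • ω' i := fun a => by abel
  rw [e3, e3] at h1
  simp only [Prod.smul_fst, Prod.smul_snd, smul_eq_mul] at h1
  rw [mul_comm _ y.1, mul_comm _ y.2, e1, e2] at h1
  show (_, _) ∈ F
  convert h1 using 1
  apply Prod.ext
  · exact mul_comm _ _
  · exact mul_comm _ _

end frame

end Pool.Agent.Lib.MP_745d3a_ag.FM
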