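import Pool.Agent.Lib.MP_745d3a_ag.FM.Lift

/-!
A family whose saturated special fibre is free is free.
-/

set_option autoImplicit false
set_option linter.unusedSectionVars false

open MvPolynomial

namespace Pool.Agent.Lib.MP_745d3a_ag.FM

section gen

variable {σ K R G : Type*} [Fintype σ] [Field K] [AddCommGroup R]
  [Module (MvPolynomial (Option σ) K) R]
  [AddCommGroup G] [DecidableEq G] {ω : Option σ → G} {𝓡 : G → AddSubgroup R}
  [DirectSum.Decomposition 𝓡] [SetLike.GradedSMul (weightedHomogeneousSubmodule K ω) 𝓡]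
  {a₁ a₂ : G} {φ₁ φ₂ : R →ₗ[MvPolynomial (Option σ) K] MvPolynomial (Option σ) K}
  {u : MvPolynomial (Option σ) K} {e₁ e₂ : R}

/-- The homogeneous component of a pair. -/
noncomputable def PP (ω' : σ → G) (a₁ a₂ : G) (h : G)
    (z : MvPolynomial σ K × MvPolynomial σ K) : MvPolynomial σ K × MvPolynomial σ K :=
  (weightedHomogeneousComponent ω' (h + a₁) z.1, weightedHomogeneousComponent ω' (h + a₂) z.2)

omit [Fintype σ] in
lemma PP_same {ω' : σ → G} {h : G} {z : MvPolynomial σ K × MvPolynomial σ K}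
    (hz : PHom ω' a₁ a₂ h z) : PP ω' a₁ a₂ h z = z := by
  apply Prod.ext
  · exact (weightedHomogeneousComponent_of_mem hz.1).trans (if_pos rfl)
  · exact (weightedHomogeneousComponent_of_mem hz.2).trans (if_pos rfl)

omit [Fintype σ] [DecidableEq G] in
lemma PP_add {ω' : σ → G} (h : G) (z z' : MvPolynomial σ K × MvPolynomial σ K) :
    PP ω' a₁ a₂ h (z + z') = PP ω' a₁ a₂ h z + PP ω' a₁ a₂ h z' := by
  apply Prod.ext <;> simp [PP]

omit [Fintype σ] [DecidableEq G] in
lemma PP_hom {ω' : σ → G} (h : G) (z : MvPolynomial σ K × MvPolynomial σ K) :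
    PHom ω' a₁ a₂ h (PP ω' a₁ a₂ h z) :=
  ⟨weightedHomogeneousComponent_isWeightedHomogeneous _ _,
    weightedHomogeneousComponent_isWeightedHomogeneous _ _⟩

omit [DecidableEq G] in
lemma PP_smul {ω' : σ → G} {h g : G} {z : MvPolynomial σ K × MvPolynomial σ K}
    (hz : PHom ω' a₁ a₂ g z) (f : MvPolynomial σ K) :
    PP ω' a₁ a₂ h (f • z) = weightedHomogeneousComponent ω' (h - g) f • z := by
  classical
  apply Prod.ext
  · show weightedHomogeneousComponent ω' (h + a₁) (f * z.1) = _ * z.1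
    rw [show h + a₁ = (h - g) + (g + a₁) by abel, wHC_mul_right hz.1]
  · show weightedHomogeneousComponent ω' (h + a₂) (f * z.2) = _ * z.2
    rw [show h + a₂ = (h - g) + (g + a₂) by abel, wHC_mul_right hz.2]

/-- Elements of the hull of large degree are in the image. -/
lemma large_mem {g₀ g₁ : G} {b₀ b₁ : MvPolynomial σ K × MvPolynomial σ K} {ω' : σ → G}
    {F : Submodule (MvPolynomial σ K) (MvPolynomial σ K × MvPolynomial σ K)}
    (h0 : b₀ ∈ hull F) (h1 : b₁ ∈ hull F) (hg0 : PHom ω' a₁ a₂ g₀ b₀) (hg1 : PHom ω' a₁ a₂ g₁ b₁)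
    (hspan : ∀ y ∈ hull F, ∃ f₀ f₁ : MvPolynomial σ K, y = f₀ • b₀ + f₁ • b₁)
    (δ : G →+ ℤ) (hδ : ∀ i, δ (ω' i) = 1) :
    ∃ n₀ : ℤ, ∀ g y, n₀ ≤ δ g → y ∈ hull F → PHom ω' a₁ a₂ g y → y ∈ F := by
  classical
  choose N0 hN0 using h0
  choose N1 hN1 using h1
  obtain ⟨N, hN⟩ : ∃ N : ℕ, ∀ i, N0 i ≤ N ∧ N1 i ≤ N :=
    ⟨∑ i, (N0 i + N1 i), fun i => by
      have h2 : N0 i + N1 i ≤ ∑ i, (N0 i + N1 i) :=
        Finset.single_le_sum (f := fun i => N0 i + N1 i) (fun _ _ => Nat.zero_le _)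
          (Finset.mem_univ i)
      omega⟩
  -- large monomials
  have hmono : ∀ (b : MvPolynomial σ K × MvPolynomial σ K) (N' : σ → ℕ), (∀ i, N' i ≤ N) →
      (∀ i, (X i : MvPolynomial σ K) ^ N' i • b ∈ F) → ∀ (d : G) (f : MvPolynomial σ K),
      IsWeightedHomogeneous ω' f d → ((Fintype.card σ * N : ℕ) : ℤ) < δ d → f • b ∈ F := by
    intro b N' hN' hb d f hf hd
    rw [f.as_sum, Finset.sum_smul]
    apply Submodule.sum_mem
    intro e he
    have hw := hf (mem_support_iff.mp he)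
    have h3 : δ d = ∑ i, (e i : ℤ) := by
      rw [← hw, Finsupp.weight_apply, Finsupp.sum_fintype _ _ (by intro κ; simp), map_sum]
      apply Finset.sum_congr rfl
      intro i _
      rw [map_nsmul, hδ, nsmul_eq_mul, mul_one]
    obtain ⟨i, hi⟩ : ∃ i, N ≤ e i := by
      by_contra hcon
      push Not at hcon
      have h4 : ∑ i, (e i : ℤ) ≤ ∑ _i : σ, (N : ℤ) :=
        Finset.sum_le_sum (fun i _ => by exact_mod_cast (hcon i).le)
      rw [Finset.sum_const, Finset.card_univ, nsmul_eq_mul] at h4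
      rw [h3] at hd
      push_cast at hd
      linarith
    have h5 : (monomial e (coeff e f) : MvPolynomial σ K) =
        monomial (e - Finsupp.single i (N' i)) (coeff e f) * X i ^ (N' i) := by
      rw [X_pow_eq_monomial, monomial_mul, mul_one, tsub_add_cancel_of_le]
      rw [Finsupp.single_le_iff]
      exact (hN' i).trans hi
    rw [h5, mul_smul]
    exact Submodule.smul_mem _ _ (hb i)
  refine ⟨max (δ g₀) (δ g₁) + (Fintype.card σ * N : ℕ) + 1, ?_⟩
  intro g y hg hy hyg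
  obtain ⟨f₀, f₁, hf⟩ := hspan y hy
  have h2 : y = weightedHomogeneousComponent ω' (g - g₀) f₀ • b₀ +
      weightedHomogeneousComponent ω' (g - g₁) f₁ • b₁ := by
    rw [← PP_smul hg0, ← PP_smul hg1, ← PP_add, ← hf, PP_same hyg]
  rw [h2]
  refine F.add_mem ?_ ?_
  · refine hmono b₀ N0 (fun i => (hN i).1) hN0 (g - g₀) _
      (weightedHomogeneousComponent_isWeightedHomogeneous _ _) ?_
    rw [map_sub]
    have := le_max_left (δ g₀) (δ g₁)
    linarith
  · refine hmono b₁ N1 (fun i => (hN i).2) hN1 (g - g₁) _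
      (weightedHomogeneousComponent_isWeightedHomogeneous _ _) ?_
    rw [map_sub]
    have := le_max_right (δ g₀) (δ g₁)
    linarith

/-- The image is saturated. -/
theorem hull_le {i j k : σ} (hij : i ≠ j) (hik : i ≠ k) (hjk : j ≠ k)
    (hR : PF.Bun (fun i : σ => (X (some i) : MvPolynomial (Option σ) K)) R)
    (F : Frm ω 𝓡 a₁ a₂ φ₁ φ₂ u e₁ e₂)
    (b : Module.Basis (Fin 2) (MvPolynomial σ K) (hull (Mz φ₁ φ₂))) {gb : Fin 2 → G}
    (hb : ∀ l, PHom (fun i => ω (some i)) a₁ a₂ (gb l) (b l).1)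
    (δ ψ : G →+ ℤ) (hδ : ∀ i, δ (ω (some i)) = 1) (hδ0 : δ (ω none) = 0)
    (hψ : ∀ i, 0 ≤ ψ (ω (some i))) (hψ0 : 0 < ψ (ω none)) : hull (Mz φ₁ φ₂) ≤ Mz φ₁ φ₂ := by
  classical
  have hspan : ∀ y ∈ hull (Mz φ₁ φ₂), ∃ f₀ f₁ : MvPolynomial σ K,
      y = f₀ • (b 0).1 + f₁ • (b 1).1 := by
    intro y hy
    refine ⟨b.repr ⟨y, hy⟩ 0, b.repr ⟨y, hy⟩ 1, ?_⟩
    have h1 := b.sum_repr ⟨y, hy⟩
    rw [Fin.sum_univ_two] at h1
    exact (congrArg Subtype.val h1).symm
  obtain ⟨n₀, hn₀⟩ := large_mem (b 0).2 (b 1).2 (hb 0) (hb 1) hspan δ hδ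
  have key : ∀ n : ℕ, ∀ g y, n₀ - n ≤ δ g → y ∈ hull (Mz φ₁ φ₂) →
      PHom (fun i => ω (some i)) a₁ a₂ g y → y ∈ Mz φ₁ φ₂ := by
    intro n
    induction n with
    | zero =>
      intro g y h1 h2 h3
      exact hn₀ g y (by simpa using h1) h2 h3
    | succ n ih =>
      intro g y h1 h2 h3
      refine lift_step hij hik hjk hR F b δ ψ hδ hδ0 hψ hψ0 g y h2 h3 ?_
      intro g' y' h4 h5 h6
      refine ih g' y' ?_ h5 h6
      rw [h4]
      push_cast at h1
      linarith
  intro y hy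
  obtain ⟨s, h1, h2⟩ := exists_comps (fun i => ω (some i)) y.1 y.2 a₁ a₂
  have h3 : y = ∑ g ∈ s, PP (fun i => ω (some i)) a₁ a₂ g y := by
    apply Prod.ext
    · rw [Prod.fst_sum]; exact h1
    · rw [Prod.snd_sum]; exact h2
  rw [h3]
  apply Submodule.sum_mem
  intro g _
  refine key (n₀ - δ g).toNat g _ ?_ (pairHom_hull (pairHom_Mz F) y hy g) (PP_hom _ _)
  have := Int.self_le_toNat (n₀ - δ g)
  linarith

/-- A family whose saturated special fibre is free is free. -/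
theorem exists_basis {i j k : σ} (hij : i ≠ j) (hik : i ≠ k) (hjk : j ≠ k)
    (hR : PF.Bun (fun i : σ => (X (some i) : MvPolynomial (Option σ) K)) R)
    (F : Frm ω 𝓡 a₁ a₂ φ₁ φ₂ u e₁ e₂)
    (b : Module.Basis (Fin 2) (MvPolynomial σ K) (hull (Mz φ₁ φ₂))) {gb : Fin 2 → G}
    (hb : ∀ l, PHom (fun i => ω (some i)) a₁ a₂ (gb l) (b l).1)
    (δ ψ : G →+ ℤ) (hδ : ∀ i, δ (ω (some i)) = 1) (hδ0 : δ (ω none) = 0)
    (hψ : ∀ i, 0 ≤ ψ (ω (some i))) (hψ0 : 0 < ψ (ω none)) :
    ∃ B : Module.Basis (Fin 2) (MvPolynomial (Option σ) K) R, ∀ l, B l ∈ 𝓡 (gb l) := by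
  classical
  have hfin := hR.fin
  have hle := hull_le hij hik hjk hR F b hb δ ψ hδ hδ0 hψ hψ0
  have hlift : ∀ l, ∃ m ∈ 𝓡 (gb l), pr φ₁ φ₂ m = (b l).1 := fun l =>
    exists_hom_lift F (hle (b l).2) (hb l)
  choose E hE hEp using hlift
  obtain ⟨B, hB⟩ := bounded_below (K := K) ω 𝓡 ψ (by
    intro o
    cases o with
    | none => exact hψ0.le
    | some i => exact hψ i)
  have ht0 : (X none : MvPolynomial (Option σ) K) ≠ 0 := X_ne_zero none
  -- generation in each degree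
  have hgen : ∀ n : ℕ, ∀ g, ψ g - B < n → ∀ m ∈ 𝓡 g,
      ∃ c d : MvPolynomial (Option σ) K, m = c • E 0 + d • E 1 := by
    intro n
    induction n with
    | zero =>
      intro g hg m hm
      by_cases hm0 : m = 0
      · exact ⟨0, 0, by rw [hm0, zero_smul, zero_smul, add_zero]⟩
      · have := hB g m hm hm0
        exfalso
        push_cast at hg
        linarith
    | succ n ih =>
      intro g hg m hm
      have hy := pr_hom F hm
      obtain ⟨f₀, f₁, hf⟩ : ∃ f₀ f₁ : MvPolynomial σ K,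
          pr φ₁ φ₂ m = f₀ • (b 0).1 + f₁ • (b 1).1 := by
        have hm' : pr φ₁ φ₂ m ∈ hull (Mz φ₁ φ₂) := le_hull _ ⟨m, rfl⟩
        refine ⟨b.repr ⟨_, hm'⟩ 0, b.repr ⟨_, hm'⟩ 1, ?_⟩
        have h1 := b.sum_repr ⟨_, hm'⟩
        rw [Fin.sum_univ_two] at h1
        exact (congrArg Subtype.val h1).symm
      set c₀ := weightedHomogeneousComponent (fun i => ω (some i)) (g - gb 0) f₀ with hc0
      set c₁ := weightedHomogeneousComponent (fun i => ω (some i)) (g - gb 1) f₁ with hc1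
      have h2 : pr φ₁ φ₂ m = c₀ • (b 0).1 + c₁ • (b 1).1 := by
        rw [hc0, hc1, ← PP_smul (hb 0), ← PP_smul (hb 1), ← PP_add, ← hf, PP_same hy]
      have h3 : pr φ₁ φ₂ (m - (inc c₀ • E 0 + inc c₁ • E 1)) = 0 := by
        rw [map_sub, map_add, pr_smul, pr_smul, ev0_inc, ev0_inc, hEp, hEp, ← h2, sub_self]
      obtain ⟨r, hr⟩ := pr_ker hR F h3
      have h4 : m - (inc c₀ • E 0 + inc c₁ • E 1) ∈ 𝓡 g := by
        refine AddSubgroup.sub_mem _ hm (AddSubgroup.add_mem _ ?_ ?_)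
        · have := smul_mem' ω 𝓡 (inc_hom (ω := ω)
            (weightedHomogeneousComponent_isWeightedHomogeneous (g - gb 0) f₀)) (hE 0)
          rwa [sub_add_cancel] at this
        · have := smul_mem' ω 𝓡 (inc_hom (ω := ω)
            (weightedHomogeneousComponent_isWeightedHomogeneous (g - gb 1) f₁)) (hE 1)
          rwa [sub_add_cancel] at this
      rw [hr] at h4
      have h5 := mem_of_smul_mem ω 𝓡 hR.tf (isWeightedHomogeneous_X K ω none) ht0 h4
      obtain ⟨c, d, hcd⟩ := ih (g - ω none) (by rw [map_sub]; push_cast at hg; linarith) r h5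
      refine ⟨inc c₀ + X none * c, inc c₁ + X none * d, ?_⟩
      rw [hcd] at hr
      rw [eq_add_of_sub_eq hr, smul_add, add_smul, add_smul, mul_smul, mul_smul]
      abel
  have hspan : ∀ m : R, ∃ c d : MvPolynomial (Option σ) K, m = c • E 0 + d • E 1 := by
    intro m
    refine hom_induction 𝓡 (P := fun m => ∃ c d : MvPolynomial (Option σ) K,
      m = c • E 0 + d • E 1) ⟨0, 0, by simp⟩ ?_ ?_ m
    · intro g m hm
      refine hgen ((ψ g - B).toNat + 1) g ?_ m hm
      push_cast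
      have := Int.self_le_toNat (ψ g - B)
      linarith
    · rintro m n ⟨c, d, h⟩ ⟨c', d', h'⟩
      exact ⟨c + c', d + d', by rw [h, h', add_smul, add_smul]; abel⟩
  -- independence
  have hstep : ∀ c d : MvPolynomial (Option σ) K, c • E 0 + d • E 1 = 0 →
      X none ∣ c ∧ X none ∣ d := by
    intro c d h
    have h1 := congrArg (pr φ₁ φ₂) h
    rw [map_add, pr_smul, pr_smul, hEp 0, hEp 1, (pr φ₁ φ₂).map_zero] at h1
    have h2 : ev0 c • b 0 + ev0 d • b 1 = 0 := Subtype.ext h1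
    have h3 := Fintype.linearIndependent_iff.mp b.linearIndependent ![ev0 c, ev0 d]
      (by rw [Fin.sum_univ_two]; simpa using h2)
    have h4 : ev0 c = 0 := by simpa using h3 0
    have h5 : ev0 d = 0 := by simpa using h3 1
    exact ⟨ev0_eq_zero.mp h4, ev0_eq_zero.mp h5⟩
  have hpow : ∀ n : ℕ, ∀ c d : MvPolynomial (Option σ) K, c • E 0 + d • E 1 = 0 →
      X none ^ n ∣ c ∧ X none ^ n ∣ d := by
    intro n
    induction n with
    | zero => intro c d _; simp
    | succ n ih =>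
      intro c d h
      obtain ⟨⟨c', rfl⟩, ⟨d', rfl⟩⟩ := hstep c d h
      have h1 : (X none : MvPolynomial (Option σ) K) • (c' • E 0 + d' • E 1) = 0 := by
        rw [smul_add, ← mul_smul, ← mul_smul]; exact h
      have h2 := (hR.tf _ _ h1).resolve_left ht0
      obtain ⟨h3, h4⟩ := ih c' d' h2
      rw [pow_succ, mul_comm (X none ^ n)]
      exact ⟨mul_dvd_mul_left _ h3, mul_dvd_mul_left _ h4⟩
  have hzero : ∀ c : MvPolynomial (Option σ) K, (∀ n : ℕ, X none ^ n ∣ c) → c = 0 := by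
    intro c h
    by_contra hc
    obtain ⟨n, hn⟩ := FiniteMultiplicity.of_not_isUnit (prime_none (K := K) (σ := σ)).not_isUnit hc
    exact hn (h (n + 1))
  have hind : ∀ c d : MvPolynomial (Option σ) K, c • E 0 + d • E 1 = 0 → c = 0 ∧ d = 0 :=
    fun c d h => ⟨hzero c (fun n => (hpow n c d h).1), hzero d (fun n => (hpow n c d h).2)⟩
  have hli : LinearIndependent (MvPolynomial (Option σ) K) E := by
    rw [Fintype.linearIndependent_iff]
    intro f hf
    rw [Fin.sum_univ_two] at hf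
    have := hind _ _ hf
    intro l
    fin_cases l
    · exact this.1
    · exact this.2
  have hsp : ⊤ ≤ Submodule.span (MvPolynomial (Option σ) K) (Set.range E) := by
    intro m _
    obtain ⟨c, d, h⟩ := hspan m
    rw [h]
    exact Submodule.add_mem _ (Submodule.smul_mem _ _ (Submodule.subset_span ⟨0, rfl⟩))
      (Submodule.smul_mem _ _ (Submodule.subset_span ⟨1, rfl⟩))
  refine ⟨Module.Basis.mk hli hsp, fun l => ?_⟩
  rw [Module.Basis.mk_apply]
  exact hE l

end gen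

end Pool.Agent.Lib.MP_745d3a_ag.FM
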