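import Pool.Agent.Lib.MP_745d3a_ag.FM.Ev

/-!
Gradings from projections; graded submodules of `A × A`.
-/

set_option autoImplicit false
set_option linter.unusedSectionVars false

open MvPolynomial

namespace Pool.Agent.Lib.MP_745d3a_ag.FM

section proj

variable {M G : Type*} [AddCommGroup M] [DecidableEq G]

/-- A family of projections defines a decomposition. -/
noncomputable def decompositionOfProj (𝓜 : G → AddSubgroup M) (P : G → M → M)
    (hmem : ∀ g m, P g m ∈ 𝓜 g) (hadd : ∀ g m n, P g (m + n) = P g m + P g n)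
    (hsame : ∀ g, ∀ m ∈ 𝓜 g, P g m = m) (hne : ∀ g h, g ≠ h → ∀ m ∈ 𝓜 g, P h m = 0)
    (hfin : ∀ m, ∃ s : Finset G, m = ∑ g ∈ s, P g m) : DirectSum.Decomposition 𝓜 := by
  classical
  have hz : ∀ g, P g 0 = 0 := by
    intro g
    have := hadd g 0 0
    rw [add_zero] at this
    exact (left_eq_add.mp this)
  have hcoe : ∀ (x : DirectSum G (fun g => 𝓜 g)) (g : G),
      P g (DirectSum.coeAddMonoidHom 𝓜 x) = (x g : M) := by
    intro x g
    induction x using DirectSum.induction_on with
    | zero => rw [map_zero, hz]; rfl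
    | of i y =>
      rw [DirectSum.coeAddMonoidHom_of]
      by_cases h : i = g
      · subst h
        rw [hsame _ _ y.2, DirectSum.of_eq_same]
      · rw [hne _ _ h _ y.2, DirectSum.of_eq_of_ne _ _ _ (Ne.symm h)]
        rfl
    | add x y hx hy => rw [map_add, hadd, hx, hy]; rfl
  have hint : DirectSum.IsInternal 𝓜 := by
    constructor
    · rw [injective_iff_map_eq_zero]
      intro x hx
      ext g
      rw [← hcoe, hx, hz]
      rfl
    · intro m
      obtain ⟨s, hs⟩ := hfin m
      refine ⟨∑ g ∈ s, DirectSum.of (fun g => 𝓜 g) g ⟨P g m, hmem g m⟩, ?_⟩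
      rw [map_sum]
      conv_rhs => rw [hs]
      apply Finset.sum_congr rfl
      intro g _
      rw [DirectSum.coeAddMonoidHom_of]
  exact hint.chooseDecomposition

end proj

section pair

variable {σ K G : Type*} [Fintype σ] [Field K] [AddCommGroup G] [DecidableEq G]

/-- Elements of `F ≤ A × A` whose coordinates are homogeneous of degrees `g + a₁`, `g + a₂`. -/
def pairGr (ω : σ → G) (a₁ a₂ : G)
    (F : Submodule (MvPolynomial σ K) (MvPolynomial σ K × MvPolynomial σ K)) (g : G) :
    AddSubgroup F where
  carrier := {y | IsWeightedHomogeneous ω y.1.1 (g + a₁) ∧ IsWeightedHomogeneous ω y.1.2 (g + a₂)}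
  add_mem' := fun hx hy => ⟨hx.1.add hy.1, hx.2.add hy.2⟩
  zero_mem' := ⟨isWeightedHomogeneous_zero _ _ _, isWeightedHomogeneous_zero _ _ _⟩
  neg_mem' := by
    rintro x ⟨h1, h2⟩
    have e : ∀ (p : MvPolynomial σ K) (d : G), IsWeightedHomogeneous ω p d →
        IsWeightedHomogeneous ω (-p) d := by
      intro p d hp
      rw [← mem_weightedHomogeneousSubmodule] at hp ⊢
      exact Submodule.neg_mem _ hp
    exact ⟨e _ _ h1, e _ _ h2⟩

lemma mem_pairGr {ω : σ → G} {a₁ a₂ : G}
    {F : Submodule (MvPolynomial σ K) (MvPolynomial σ K × MvPolynomial σ K)} {g : G} {y : F} :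
    y ∈ pairGr ω a₁ a₂ F g ↔
      IsWeightedHomogeneous ω y.1.1 (g + a₁) ∧ IsWeightedHomogeneous ω y.1.2 (g + a₂) := Iff.rfl

/-- A submodule of `A × A` is homogeneous. -/
def PairHom (ω : σ → G) (a₁ a₂ : G)
    (F : Submodule (MvPolynomial σ K) (MvPolynomial σ K × MvPolynomial σ K)) : Prop :=
  ∀ y ∈ F, ∀ g, ((weightedHomogeneousComponent ω (g + a₁) y.1,
    weightedHomogeneousComponent ω (g + a₂) y.2) : MvPolynomial σ K × MvPolynomial σ K) ∈ F

/-- Finitely many components. -/
lemma exists_comps (ω : σ → G) (p q : MvPolynomial σ K) (a₁ a₂ : G) : ∃ s : Finset G,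
    p = ∑ g ∈ s, weightedHomogeneousComponent ω (g + a₁) p ∧
    q = ∑ g ∈ s, weightedHomogeneousComponent ω (g + a₂) q := by
  classical
  have h1 : ∀ (p : MvPolynomial σ K) (a : G) (s : Finset G),
      (p.support.image (fun e => Finsupp.weight ω e - a)) ⊆ s →
      p = ∑ g ∈ s, weightedHomogeneousComponent ω (g + a) p := by
    intro p a s hs
    ext e
    rw [coeff_sum]
    by_cases he : e ∈ p.support
    · have h2 : Finsupp.weight ω e - a ∈ s := hs (Finset.mem_image_of_mem _ he)
      rw [Finset.sum_eq_single_of_mem _ h2]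
      · rw [coeff_weightedHomogeneousComponent, if_pos (by abel)]
      · intro g _ hg
        rw [coeff_weightedHomogeneousComponent, if_neg]
        intro h3
        apply hg
        rw [h3]; abel
    · rw [notMem_support_iff.mp he]
      symm
      apply Finset.sum_eq_zero
      intro g _
      rw [coeff_weightedHomogeneousComponent, notMem_support_iff.mp he, ite_self]
  refine ⟨(p.support.image (fun e => Finsupp.weight ω e - a₁)) ∪
    (q.support.image (fun e => Finsupp.weight ω e - a₂)), h1 _ _ _ Finset.subset_union_left,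
    h1 _ _ _ Finset.subset_union_right⟩

/-- The grading of a homogeneous submodule of `A × A`. -/
noncomputable def pairDec {ω : σ → G} {a₁ a₂ : G}
    {F : Submodule (MvPolynomial σ K) (MvPolynomial σ K × MvPolynomial σ K)}
    (hF : PairHom ω a₁ a₂ F) : DirectSum.Decomposition (pairGr ω a₁ a₂ F) :=
  decompositionOfProj (pairGr ω a₁ a₂ F)
    (fun g y => ⟨(weightedHomogeneousComponent ω (g + a₁) y.1.1,
      weightedHomogeneousComponent ω (g + a₂) y.1.2), hF y.1 y.2 g⟩)
    (fun g y => ⟨weightedHomogeneousComponent_isWeightedHomogeneous _ _,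
      weightedHomogeneousComponent_isWeightedHomogeneous _ _⟩)
    (fun g y z => by
      apply Subtype.ext
      apply Prod.ext <;> simp)
    (fun g y hy => by
      apply Subtype.ext
      apply Prod.ext
      · exact (weightedHomogeneousComponent_of_mem hy.1).trans (if_pos rfl)
      · exact (weightedHomogeneousComponent_of_mem hy.2).trans (if_pos rfl))
    (fun g h hgh y hy => by
      apply Subtype.ext
      apply Prod.ext
      · refine (weightedHomogeneousComponent_of_mem hy.1).trans (if_neg ?_)
        intro h1; exact hgh (by simpa using h1.symm)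
      · refine (weightedHomogeneousComponent_of_mem hy.2).trans (if_neg ?_)
        intro h1; exact hgh (by simpa using h1.symm))
    (fun y => by
      obtain ⟨s, h1, h2⟩ := exists_comps ω y.1.1 y.1.2 a₁ a₂
      refine ⟨s, ?_⟩
      apply Subtype.ext
      rw [AddSubmonoidClass.coe_finset_sum]
      apply Prod.ext
      · rw [Prod.fst_sum]; exact h1
      · rw [Prod.snd_sum]; exact h2)

lemma pairGr_smul {ω : σ → G} {a₁ a₂ : G}
    {F : Submodule (MvPolynomial σ K) (MvPolynomial σ K × MvPolynomial σ K)} :
    SetLike.GradedSMul (weightedHomogeneousSubmodule K ω) (pairGr ω a₁ a₂ F) := by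
  constructor
  intro d g a y ha hy
  rw [mem_weightedHomogeneousSubmodule] at ha
  constructor
  · have := ha.mul hy.1
    rw [← add_assoc] at this
    exact this
  · have := ha.mul hy.2
    rw [← add_assoc] at this
    exact this

end pair

end Pool.Agent.Lib.MP_745d3a_ag.FM
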