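import Pool.Agent.Lib.MP_745d3a_ag.FM.Fibre

/-!
Lifting homogeneous elements of the saturated special fibre.
-/

set_option autoImplicit false
set_option linter.unusedSectionVars false

open MvPolynomial

namespace Pool.Agent.Lib.MP_745d3a_ag.FM

section koszul

variable {σ K : Type*} [Field K]

lemma coordX : PF.Coord K (X : σ → MvPolynomial σ K) :=
  ⟨by rw [MvPolynomial.aeval_X_left]; exact Function.bijective_id⟩

/-- Exactness of the Koszul complex of three variables. -/
lemma koszul_poly {i j k : σ} (hij : i ≠ j) (hik : i ≠ k) (hjk : j ≠ k)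
    {a b c : MvPolynomial σ K} (h : X k * a - X j * b + X i * c = 0) :
    ∃ s t r : MvPolynomial σ K, a = X j * s - X i * t ∧ b = X k * s - X i * r ∧
      c = X k * t - X j * r := by
  have h1 : (X k : MvPolynomial σ K) ^ 1 * a = X i ^ 1 * (-c) + X j ^ 1 * b := by
    rw [pow_one, pow_one, pow_one]
    linear_combination h
  obtain ⟨u, v, huv⟩ := (coordX (K := K) (σ := σ)).koszul hij hik hjk 1 1 1 h1
  rw [pow_one, pow_one] at huv
  have h2 : X j * (X k * v - b) = X i * (-(X k * u) - c) := by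
    linear_combination h - (X k : MvPolynomial σ K) * huv
  have h3 : (X i : MvPolynomial σ K) ∣ X k * v - b := by
    have h4 : (X i : MvPolynomial σ K) ∣ X j * (X k * v - b) := ⟨_, h2⟩
    rcases ((coordX (K := K) (σ := σ)).prime_x i).dvd_or_dvd h4 with h5 | h5
    · exfalso
      have h6 := ((coordX (K := K) (σ := σ)).relPrime_pow hij 1 1)
      rw [pow_one, pow_one] at h6
      exact ((coordX (K := K) (σ := σ)).prime_x i).not_isUnit (h6 dvd_rfl h5)
    · exact h5
  obtain ⟨r, hr⟩ := h3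
  refine ⟨v, -u, r, by linear_combination huv, by linear_combination -hr, ?_⟩
  apply mul_left_cancel₀ (X_ne_zero (R := K) i)
  rw [hr] at h2
  linear_combination h2

variable {M : Type*} [AddCommGroup M] [Module (MvPolynomial σ K) M]

/-- Exactness of the Koszul complex on a free module of rank two. -/
lemma koszul_mod {i j k : σ} (hij : i ≠ j) (hik : i ≠ k) (hjk : j ≠ k)
    (b : Module.Basis (Fin 2) (MvPolynomial σ K) M) {p q r : M}
    (h : (X k : MvPolynomial σ K) • p - (X j : MvPolynomial σ K) • q +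
      (X i : MvPolynomial σ K) • r = 0) :
    ∃ s t v : M, p = (X j : MvPolynomial σ K) • s - (X i : MvPolynomial σ K) • t ∧
      q = (X k : MvPolynomial σ K) • s - (X i : MvPolynomial σ K) • v ∧
      r = (X k : MvPolynomial σ K) • t - (X j : MvPolynomial σ K) • v := by
  have h1 : ∀ l : Fin 2, ∃ s t r' : MvPolynomial σ K,
      b.repr p l = X j * s - X i * t ∧ b.repr q l = X k * s - X i * r' ∧
      b.repr r l = X k * t - X j * r' := by
    intro l
    apply koszul_poly hij hik hjk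
    have h2 := congrArg (fun m => b.repr m l) h
    simpa using h2
  choose s t v hs ht hv using h1
  have e : ∀ f : Fin 2 → MvPolynomial σ K, ∀ l, b.repr (∑ l, f l • b l) l = f l := by
    intro f l
    rw [b.repr_sum_self]
  refine ⟨∑ l, s l • b l, ∑ l, t l • b l, ∑ l, v l • b l, ?_, ?_, ?_⟩
  · apply b.ext_elem
    intro l
    rw [hs, map_sub, map_smul, map_smul, Finsupp.sub_apply, Finsupp.smul_apply,
      Finsupp.smul_apply, e, e]
    rfl
  · apply b.ext_elem
    intro l
    rw [ht, map_sub, map_smul, map_smul, Finsupp.sub_apply, Finsupp.smul_apply,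
      Finsupp.smul_apply, e, e]
    rfl
  · apply b.ext_elem
    intro l
    rw [hv, map_sub, map_smul, map_smul, Finsupp.sub_apply, Finsupp.smul_apply,
      Finsupp.smul_apply, e, e]
    rfl

end koszul

section lift

variable {σ K R G : Type*} [Fintype σ] [Field K] [AddCommGroup R]
  [Module (MvPolynomial (Option σ) K) R]
  [AddCommGroup G] [DecidableEq G] {ω : Option σ → G} {𝓡 : G → AddSubgroup R}
  [DirectSum.Decomposition 𝓡] [SetLike.GradedSMul (weightedHomogeneousSubmodule K ω) 𝓡]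
  {a₁ a₂ : G} {φ₁ φ₂ : R →ₗ[MvPolynomial (Option σ) K] MvPolynomial (Option σ) K}
  {u : MvPolynomial (Option σ) K} {e₁ e₂ : R}

/-- The projection commutes with taking homogeneous components. -/
lemma pr_comp (F : Frm ω 𝓡 a₁ a₂ φ₁ φ₂ u e₁ e₂) (g : G) (m : R) :
    pr φ₁ φ₂ (comp 𝓡 g m) =
      (weightedHomogeneousComponent (fun i => ω (some i)) (g + a₁) (pr φ₁ φ₂ m).1,
      weightedHomogeneousComponent (fun i => ω (some i)) (g + a₂) (pr φ₁ φ₂ m).2) := by
  rw [pr_apply, pr_apply]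
  refine hom_induction 𝓡 (P := fun m => (ev0 (φ₁ (comp 𝓡 g m)), ev0 (φ₂ (comp 𝓡 g m))) =
    ((weightedHomogeneousComponent (fun i => ω (some i)) (g + a₁)) (ev0 (φ₁ m)),
      (weightedHomogeneousComponent (fun i => ω (some i)) (g + a₂)) (ev0 (φ₂ m)))) ?_ ?_ ?_ m
  · rw [comp_zero]; simp
  · intro h m hm
    have k1 := ev0_hom (F.h1 h m hm)
    have k2 := ev0_hom (F.h2 h m hm)
    by_cases hgh : h = g
    · subst hgh
      rw [comp_same 𝓡 hm]
      apply Prod.ext
      · exact ((weightedHomogeneousComponent_of_mem k1).trans (if_pos rfl)).symm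
      · exact ((weightedHomogeneousComponent_of_mem k2).trans (if_pos rfl)).symm
    · rw [comp_ne 𝓡 hm hgh, map_zero, map_zero, map_zero]
      apply Prod.ext
      · refine ((weightedHomogeneousComponent_of_mem k1).trans (if_neg ?_)).symm
        intro h1; exact hgh (by simpa using h1.symm)
      · refine ((weightedHomogeneousComponent_of_mem k2).trans (if_neg ?_)).symm
        intro h1; exact hgh (by simpa using h1.symm)
  · intro m n hm hn
    rw [comp_add, map_add, map_add, map_add, map_add, map_add, map_add, map_add, map_add, map_add,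
      map_add]
    simp only [Prod.mk.injEq] at hm hn ⊢
    exact ⟨by rw [← hm.1, ← hn.1], by rw [← hm.2, ← hn.2]⟩

/-- Homogeneous pairs. -/
def PHom (ω' : σ → G) (a₁ a₂ g : G) (y : MvPolynomial σ K × MvPolynomial σ K) : Prop :=
  IsWeightedHomogeneous ω' y.1 (g + a₁) ∧ IsWeightedHomogeneous ω' y.2 (g + a₂)

omit [DirectSum.Decomposition 𝓡] [SetLike.GradedSMul (weightedHomogeneousSubmodule K ω) 𝓡] in
lemma pr_hom (F : Frm ω 𝓡 a₁ a₂ φ₁ φ₂ u e₁ e₂) {g : G} {m : R} (hm : m ∈ 𝓡 g) :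
    PHom (fun i => ω (some i)) a₁ a₂ g (pr φ₁ φ₂ m) :=
  ⟨ev0_hom (F.h1 g m hm), ev0_hom (F.h2 g m hm)⟩

/-- Homogeneous elements of the image have homogeneous preimages. -/
lemma exists_hom_lift (F : Frm ω 𝓡 a₁ a₂ φ₁ φ₂ u e₁ e₂) {g : G}
    {y : MvPolynomial σ K × MvPolynomial σ K} (hy : y ∈ Mz φ₁ φ₂)
    (hg : PHom (fun i => ω (some i)) a₁ a₂ g y) : ∃ m ∈ 𝓡 g, pr φ₁ φ₂ m = y := by
  obtain ⟨m, rfl⟩ := hy
  refine ⟨comp 𝓡 g m, comp_mem 𝓡 g m, ?_⟩
  rw [pr_comp F]
  apply Prod.ext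
  · exact (weightedHomogeneousComponent_of_mem hg.1).trans (if_pos rfl)
  · exact (weightedHomogeneousComponent_of_mem hg.2).trans (if_pos rfl)

omit [Fintype σ] [DecidableEq G] in
lemma PHom.smul {ω' : σ → G} {g d : G} {y : MvPolynomial σ K × MvPolynomial σ K}
    (hy : PHom ω' a₁ a₂ g y) {a : MvPolynomial σ K} (ha : IsWeightedHomogeneous ω' a d) :
    PHom ω' a₁ a₂ (d + g) (a • y) := by
  constructor
  · have := ha.mul hy.1
    rw [← add_assoc] at this
    exact this
  · have := ha.mul hy.2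
    rw [← add_assoc] at this
    exact this

/-- One step of the lifting: an element `c` of the hull is in the image when the elements of the
hull of the next degree are. -/
lemma lift_step {i j k : σ} (hij : i ≠ j) (hik : i ≠ k) (hjk : j ≠ k)
    (hR : PF.Bun (fun i : σ => (X (some i) : MvPolynomial (Option σ) K)) R)
    (F : Frm ω 𝓡 a₁ a₂ φ₁ φ₂ u e₁ e₂)
    (b : Module.Basis (Fin 2) (MvPolynomial σ K) (hull (Mz φ₁ φ₂)))
    (δ ψ : G →+ ℤ) (hδ : ∀ i, δ (ω (some i)) = 1) (hδ0 : δ (ω none) = 0)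
    (hψ : ∀ i, 0 ≤ ψ (ω (some i))) (hψ0 : 0 < ψ (ω none))
    (g : G) (c : MvPolynomial σ K × MvPolynomial σ K) (hc : c ∈ hull (Mz φ₁ φ₂))
    (hg : PHom (fun i => ω (some i)) a₁ a₂ g c)
    (H : ∀ g' y, δ g' = δ g + 1 → y ∈ hull (Mz φ₁ φ₂) →
      PHom (fun i => ω (some i)) a₁ a₂ g' y → y ∈ Mz φ₁ φ₂) : c ∈ Mz φ₁ φ₂ := by
  classical
  have hfin := hR.fin
  set t : MvPolynomial (Option σ) K := X none with ht
  set y : σ → MvPolynomial (Option σ) K := fun i => X (some i) with hy
  have ht0 : t ≠ 0 := X_ne_zero none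
  have hyh : ∀ i, IsWeightedHomogeneous ω (y i) (ω (some i)) := fun i =>
    isWeightedHomogeneous_X K ω (some i)
  have hth : ∀ n : ℕ, IsWeightedHomogeneous ω (t ^ n) (n • ω none) := fun n =>
    (isWeightedHomogeneous_X K ω none).pow n
  have hevy : ∀ i, ev0 (y i) = X i := fun i => ev0_some i
  have hdir : ∀ l, ∃ m ∈ 𝓡 (ω (some l) + g), pr φ₁ φ₂ m = (X l : MvPolynomial σ K) • c := by
    intro l
    have h1 : PHom (fun i => ω (some i)) a₁ a₂ (ω (some l) + g) ((X l : MvPolynomial σ K) • c) :=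
      hg.smul (isWeightedHomogeneous_X K (fun i => ω (some i)) l)
    refine exists_hom_lift F (H _ _ ?_ ?_ h1) h1
    · rw [map_add, hδ, add_comm]
    · exact Submodule.smul_mem _ _ hc
  -- approximate solutions
  have key : ∀ s : ℕ, ∃ m₀ m₁ m₂ r₀₁ r₀₂ r₁₂ : R,
      m₀ ∈ 𝓡 (ω (some i) + g) ∧ m₁ ∈ 𝓡 (ω (some j) + g) ∧ m₂ ∈ 𝓡 (ω (some k) + g) ∧
      pr φ₁ φ₂ m₀ = (X i : MvPolynomial σ K) • c ∧ pr φ₁ φ₂ m₁ = (X j : MvPolynomial σ K) • c ∧
      pr φ₁ φ₂ m₂ = (X k : MvPolynomial σ K) • c ∧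
      y j • m₀ - y i • m₁ = t ^ (s + 1) • r₀₁ ∧ y k • m₀ - y i • m₂ = t ^ (s + 1) • r₀₂ ∧
      y k • m₁ - y j • m₂ = t ^ (s + 1) • r₁₂ := by
    intro s
    induction s with
    | zero =>
      obtain ⟨m₀, h0, p0⟩ := hdir i
      obtain ⟨m₁, h1, p1⟩ := hdir j
      obtain ⟨m₂, h2, p2⟩ := hdir k
      have hk : ∀ l l' (m m' : R), pr φ₁ φ₂ m = (X l : MvPolynomial σ K) • c →
          pr φ₁ φ₂ m' = (X l' : MvPolynomial σ K) • c →
          ∃ r, y l' • m - y l • m' = t ^ (0 + 1) • r := by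
        intro l l' m m' hm hm'
        rw [zero_add, pow_one]
        apply pr_ker hR F
        rw [map_sub, pr_smul, pr_smul, hevy, hevy, hm, hm', smul_comm, sub_self]
      obtain ⟨r₀₁, k1⟩ := hk i j m₀ m₁ p0 p1
      obtain ⟨r₀₂, k2⟩ := hk i k m₀ m₂ p0 p2
      obtain ⟨r₁₂, k3⟩ := hk j k m₁ m₂ p1 p2
      exact ⟨m₀, m₁, m₂, r₀₁, r₀₂, r₁₂, h0, h1, h2, p0, p1, p2, k1, k2, k3⟩
    | succ s ih =>
      obtain ⟨m₀, m₁, m₂, r₀₁, r₀₂, r₁₂, h0, h1, h2, p0, p1, p2, k1, k2, k3⟩ := ih
      have hrel : y k • r₀₁ - y j • r₀₂ + y i • r₁₂ = 0 := by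
        have e1 : t ^ (s + 1) • (y k • r₀₁ - y j • r₀₂ + y i • r₁₂) = 0 := by
          rw [smul_add, smul_sub, smul_comm _ (y k), smul_comm _ (y j), smul_comm _ (y i),
            ← k1, ← k2, ← k3]
          simp only [smul_sub, smul_smul]
          rw [mul_comm (y k) (y j), mul_comm (y k) (y i), mul_comm (y j) (y i)]
          abel
        exact (hR.tf _ _ e1).resolve_left (pow_ne_zero _ ht0)
      -- degrees
      have hdeg : ∀ l l' (m m' r : R), m ∈ 𝓡 (ω (some l) + g) → m' ∈ 𝓡 (ω (some l') + g) →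
          y l' • m - y l • m' = t ^ (s + 1) • r →
          r ∈ 𝓡 (ω (some l) + ω (some l') + g - (s + 1) • ω none) := by
        intro l l' m m' r hm hm' h
        refine mem_of_smul_mem ω 𝓡 hR.tf (hth (s + 1)) (pow_ne_zero _ ht0) ?_
        rw [← h]
        refine AddSubgroup.sub_mem _ ?_ ?_
        · have := smul_mem' ω 𝓡 (hyh l') hm
          rwa [show ω (some l') + (ω (some l) + g) = ω (some l) + ω (some l') + g by abel] at this
        · have := smul_mem' ω 𝓡 (hyh l) hm'
          rwa [show ω (some l) + (ω (some l') + g) = ω (some l) + ω (some l') + g by abel] at this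
      have d01 := hdeg i j m₀ m₁ r₀₁ h0 h1 k1
      have d02 := hdeg i k m₀ m₂ r₀₂ h0 h2 k2
      have d12 := hdeg j k m₁ m₂ r₁₂ h1 h2 k3
      have hrel' : (X k : MvPolynomial σ K) • (⟨pr φ₁ φ₂ r₀₁, le_hull _ ⟨_, rfl⟩⟩ :
            hull (Mz φ₁ φ₂)) -
          (X j : MvPolynomial σ K) • (⟨pr φ₁ φ₂ r₀₂, le_hull _ ⟨_, rfl⟩⟩ : hull (Mz φ₁ φ₂)) +
          (X i : MvPolynomial σ K) • (⟨pr φ₁ φ₂ r₁₂, le_hull _ ⟨_, rfl⟩⟩ : hull (Mz φ₁ φ₂)) =
          0 := by
        apply Subtype.ext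
        show (X k : MvPolynomial σ K) • pr φ₁ φ₂ r₀₁ - (X j : MvPolynomial σ K) • pr φ₁ φ₂ r₀₂ +
          (X i : MvPolynomial σ K) • pr φ₁ φ₂ r₁₂ = 0
        rw [← hevy, ← hevy, ← hevy, ← pr_smul, ← pr_smul, ← pr_smul, ← map_sub, ← map_add, hrel,
          map_zero]
      obtain ⟨s₀, s₁, s₂, q01, q02, q12⟩ := koszul_mod hij hik hjk b hrel'
      have q01' : pr φ₁ φ₂ r₀₁ = (X j : MvPolynomial σ K) • s₀.1 -
        (X i : MvPolynomial σ K) • s₁.1 := congrArg Subtype.val q01
      have q02' : pr φ₁ φ₂ r₀₂ = (X k : MvPolynomial σ K) • s₀.1 -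
        (X i : MvPolynomial σ K) • s₂.1 := congrArg Subtype.val q02
      have q12' : pr φ₁ φ₂ r₁₂ = (X k : MvPolynomial σ K) • s₁.1 -
        (X j : MvPolynomial σ K) • s₂.1 := congrArg Subtype.val q12
      -- homogeneous components
      have hph := pairHom_hull (pairHom_Mz F)
      let P : G → MvPolynomial σ K × MvPolynomial σ K → MvPolynomial σ K × MvPolynomial σ K :=
        fun h z => (weightedHomogeneousComponent (fun i => ω (some i)) (h + a₁) z.1,
          weightedHomogeneousComponent (fun i => ω (some i)) (h + a₂) z.2)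
      have hPsub : ∀ h z z', P h (z - z') = P h z - P h z' := by
        intro h z z'
        apply Prod.ext <;> simp [P]
      have hPX : ∀ l h z, P (ω (some l) + h) ((X l : MvPolynomial σ K) • z) =
          (X l : MvPolynomial σ K) • P h z := by
        intro l h z
        have hX := isWeightedHomogeneous_X K (fun i => ω (some i)) l
        have e1 := wHC_mul_right (F := z.1) hX (h + a₁)
        have e2 := wHC_mul_right (F := z.2) hX (h + a₂)
        have e3 : ∀ a : G, ω (some l) + h + a = h + a + ω (some l) := fun a => by abel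
        apply Prod.ext
        · show weightedHomogeneousComponent _ (ω (some l) + h + a₁) (X l * z.1) = X l * _
          rw [e3, mul_comm, e1, mul_comm]
        · show weightedHomogeneousComponent _ (ω (some l) + h + a₂) (X l * z.2) = X l * _
          rw [e3, mul_comm, e2, mul_comm]
      have hPsame : ∀ h z, PHom (fun i => ω (some i)) a₁ a₂ h z → P h z = z := by
        intro h z hz
        apply Prod.ext
        · exact (weightedHomogeneousComponent_of_mem hz.1).trans (if_pos rfl)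
        · exact (weightedHomogeneousComponent_of_mem hz.2).trans (if_pos rfl)
      have hPhom : ∀ h z, PHom (fun i => ω (some i)) a₁ a₂ h (P h z) := fun h z =>
        ⟨weightedHomogeneousComponent_isWeightedHomogeneous _ _,
          weightedHomogeneousComponent_isWeightedHomogeneous _ _⟩
      have hlift : ∀ l (z : hull (Mz φ₁ φ₂)), ∃ v ∈ 𝓡 (ω (some l) + g - (s + 1) • ω none),
          pr φ₁ φ₂ v = P (ω (some l) + g - (s + 1) • ω none) z.1 := by
        intro l z
        refine exists_hom_lift F (H _ _ ?_ ?_ (hPhom _ _)) (hPhom _ _)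
        · rw [map_sub, map_add, hδ, map_nsmul, hδ0, smul_zero, sub_zero, add_comm]
        · exact hph _ z.2 _
      obtain ⟨v₀, hv0, pv0⟩ := hlift i s₀
      obtain ⟨v₁, hv1, pv1⟩ := hlift j s₁
      obtain ⟨v₂, hv2, pv2⟩ := hlift k s₂
      have hstep : ∀ l l' (r v v' : R) (z z' : MvPolynomial σ K × MvPolynomial σ K),
          r ∈ 𝓡 (ω (some l) + ω (some l') + g - (s + 1) • ω none) →
          pr φ₁ φ₂ r = (X l' : MvPolynomial σ K) • z - (X l : MvPolynomial σ K) • z' →
          pr φ₁ φ₂ v = P (ω (some l) + g - (s + 1) • ω none) z →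
          pr φ₁ φ₂ v' = P (ω (some l') + g - (s + 1) • ω none) z' →
          ∃ r', r - (y l' • v - y l • v') = t • r' := by
        intro l l' r v v' z z' hr hpr hv hv'
        apply pr_ker hR F
        rw [map_sub, map_sub, pr_smul, pr_smul, hevy, hevy, hv, hv', ← hPX, ← hPX]
        rw [show ω (some l') + (ω (some l) + g - (s + 1) • ω none) =
            ω (some l) + ω (some l') + g - (s + 1) • ω none by abel,
          show ω (some l) + (ω (some l') + g - (s + 1) • ω none) =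
            ω (some l) + ω (some l') + g - (s + 1) • ω none by abel, ← hPsub, ← hpr,
          hPsame _ _ (pr_hom F hr), sub_self]
      obtain ⟨r₀₁', n1⟩ := hstep i j r₀₁ v₀ v₁ s₀.1 s₁.1 d01 q01' pv0 pv1
      obtain ⟨r₀₂', n2⟩ := hstep i k r₀₂ v₀ v₂ s₀.1 s₂.1 d02 q02' pv0 pv2
      obtain ⟨r₁₂', n3⟩ := hstep j k r₁₂ v₁ v₂ s₁.1 s₂.1 d12 q12' pv1 pv2
      have hnew : ∀ l (m v : R), m ∈ 𝓡 (ω (some l) + g) →
          v ∈ 𝓡 (ω (some l) + g - (s + 1) • ω none) → m - t ^ (s + 1) • v ∈ 𝓡 (ω (some l) + g) := by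
        intro l m v hm hv
        refine AddSubgroup.sub_mem _ hm ?_
        have := smul_mem' ω 𝓡 (hth (s + 1)) hv
        rwa [add_sub_cancel] at this
      have hprnew : ∀ (m v : R), pr φ₁ φ₂ (m - t ^ (s + 1) • v) = pr φ₁ φ₂ m := by
        intro m v
        rw [map_sub, pow_succ, mul_comm, mul_smul, pr_none, sub_zero]
      have hfinal : ∀ l l' (m m' r v v' r' : R), y l' • m - y l • m' = t ^ (s + 1) • r →
          r - (y l' • v - y l • v') = t • r' →
          y l' • (m - t ^ (s + 1) • v) - y l • (m' - t ^ (s + 1) • v') = t ^ (s + 1 + 1) • r' := by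
        intro l l' m m' r v v' r' e1 e2
        rw [pow_succ t (s + 1), mul_smul, ← e2, smul_sub, smul_sub, smul_sub, smul_sub, ← e1,
          smul_comm (y l') (t ^ (s + 1)), smul_comm (y l) (t ^ (s + 1))]
        abel
      exact ⟨_, _, _, r₀₁', r₀₂', r₁₂', hnew i m₀ v₀ h0 hv0, hnew j m₁ v₁ h1 hv1,
        hnew k m₂ v₂ h2 hv2, by rw [hprnew, p0], by rw [hprnew, p1], by rw [hprnew, p2],
        hfinal i j _ _ _ _ _ _ k1 n1, hfinal i k _ _ _ _ _ _ k2 n2, hfinal j k _ _ _ _ _ _ k3 n3⟩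
  -- a large power of `t` kills
  obtain ⟨B, hB⟩ := bounded_below (K := K) ω 𝓡 ψ (by
    intro o
    cases o with
    | none => exact hψ0.le
    | some i => exact hψ i)
  obtain ⟨s, hs⟩ : ∃ s : ℕ, ψ (ω (some i) + ω (some j) + g) - B < (s : ℤ) := by
    refine ⟨(ψ (ω (some i) + ω (some j) + g) - B).toNat + 1, ?_⟩
    push_cast
    have := Int.self_le_toNat (ψ (ω (some i) + ω (some j) + g) - B)
    linarith
  obtain ⟨m₀, m₁, m₂, r₀₁, -, -, h0, h1, -, p0, p1, -, k1, -, -⟩ := key s
  have hr0 : r₀₁ = 0 := by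
    by_contra hne
    have hd : r₀₁ ∈ 𝓡 (ω (some i) + ω (some j) + g - (s + 1) • ω none) := by
      refine mem_of_smul_mem ω 𝓡 hR.tf (hth (s + 1)) (pow_ne_zero _ ht0) ?_
      rw [← k1]
      refine AddSubgroup.sub_mem _ ?_ ?_
      · have := smul_mem' ω 𝓡 (hyh j) h0
        rwa [show ω (some j) + (ω (some i) + g) = ω (some i) + ω (some j) + g by abel] at this
      · have := smul_mem' ω 𝓡 (hyh i) h1
        rwa [show ω (some i) + (ω (some j) + g) = ω (some i) + ω (some j) + g by abel] at this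
    have h2 := hB _ _ hd hne
    rw [map_sub, map_nsmul, nsmul_eq_mul] at h2
    have h3 : ((s + 1 : ℕ) : ℤ) ≤ ((s + 1 : ℕ) : ℤ) * ψ (ω none) := by
      nlinarith
    push_cast at h2 h3
    linarith
  rw [hr0, smul_zero, sub_eq_zero] at k1
  have hrel : IsRelPrime (y j) (y i) := by
    have := (coordX (K := K) (σ := Option σ)).relPrime_pow
      (show (some j : Option σ) ≠ some i from fun h => hij (Option.some_injective _ h).symm) 1 1
    rwa [pow_one, pow_one] at this
  obtain ⟨n, hn⟩ := hR.ht _ _ hrel _ _ k1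
  refine ⟨n, ?_⟩
  rw [hn, pr_smul, hevy, Prod.ext_iff] at p0
  apply Prod.ext
  · exact mul_left_cancel₀ (X_ne_zero i) p0.1
  · exact mul_left_cancel₀ (X_ne_zero i) p0.2

end lift

end Pool.Agent.Lib.MP_745d3a_ag.FM
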