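import Pool.Agent.Lib.MP_745d3a_ag.FM.Gen
import Pool.Agent.Lib.MP_745d3a_ag.GM.Main

/-!
Equivariant families of rank two bundles on `P^4` over the affine line.
-/

set_option autoImplicit false
set_option linter.unusedSectionVars false

open MvPolynomial

namespace Pool.Agent.Lib.MP_745d3a_ag.FM

/-- The weights of the coordinates of `P^4 × A^1`: degree one and weight `w a` for the
coordinates of `P^4`, degree zero and weight `q` for the coordinate of the line. -/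
def omF (w : Fin 5 → ℤ) (q : ℤ) : Option (Fin 5) → ℤ × ℤ
  | none => (0, q)
  | some a => (1, w a)

lemma family_basis (w : Fin 5 → ℤ) (hw : ∃ i j, w i ≠ w j) (q : ℤ) (hq : q ≠ 0)
    {R : Type*} [AddCommGroup R] [Module (MvPolynomial (Option (Fin 5)) ℂ) R]
    (hR : PF.Bun (fun i : Fin 5 => (X (some i) : MvPolynomial (Option (Fin 5)) ℂ)) R)
    (𝓡 : ℤ × ℤ → AddSubgroup R) [DirectSum.Decomposition 𝓡]
    [SetLike.GradedSMul (weightedHomogeneousSubmodule ℂ (omF w q)) 𝓡] :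
    ∃ (B : Module.Basis (Fin 2) (MvPolynomial (Option (Fin 5)) ℂ) R) (g : Fin 2 → ℤ × ℤ),
      ∀ l, B l ∈ 𝓡 (g l) := by
  classical
  obtain ⟨a₁, a₂, φ₁, φ₂, u, e₁, e₂, F⟩ := exists_frm (omF w q) 𝓡 hR
  have hB := bun_hull hR F
  have hfin := hB.fin
  have hrefl : Module.IsReflexive (MvPolynomial (Fin 5) ℂ) (hull (Mz φ₁ φ₂)) :=
    isReflexive_of_bun coordX hB (i₁ := 0) (i₂ := 1) (by decide)
  have hom : (fun i => omF w q (some i)) = GM.om w := rfl
  have hP := pairHom_hull (pairHom_Mz F)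
  have hrank : Module.finrank (MvPolynomial (Fin 5) ℂ) (hull (Mz φ₁ φ₂)) = 2 := by
    have hbot : (⊥ : Ideal (MvPolynomial (Fin 5) ℂ)).IsPrime := Ideal.isPrime_bot
    obtain ⟨y₁, y₂, H⟩ := LB_hull hR F ⊥ hbot
      ⟨0, by rw [Ideal.mem_bot]; exact X_ne_zero 0⟩
    exact finrank_of_LB H
  have hpf : PuncturedFree (K := ℂ) (σ := Fin 5) (hull (Mz φ₁ φ₂)) := by
    intro p hp hi
    obtain ⟨y₁, y₂, H⟩ := LB_hull hR F p hp hi
    exact free_of_LB H
  let _ := pairDec hP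
  have _ : SetLike.GradedSMul (weightedHomogeneousSubmodule ℂ (GM.om w))
    (pairGr (fun i => omF w q (some i)) a₁ a₂ (hull (Mz φ₁ φ₂))) := pairGr_smul
  have hfree : Module.Free (MvPolynomial (Fin 5) ℂ) (hull (Mz φ₁ φ₂)) :=
    GM.gm_free w hw hrank hpf (pairGr (fun i => omF w q (some i)) a₁ a₂ (hull (Mz φ₁ φ₂)))
  obtain ⟨b, gb, hb⟩ := exists_hom_basis (ω := GM.om w)
    (𝓜 := pairGr (fun i => omF w q (some i)) a₁ a₂ (hull (Mz φ₁ φ₂)))
    (δ := AddMonoidHom.fst ℤ ℤ) (fun _ => rfl) hfree hrank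
  obtain ⟨C, hC⟩ : ∃ C : ℤ, ∀ a : Fin 5, |w a| ≤ C := by
    obtain ⟨a, ha⟩ := Finite.exists_max (fun a => |w a|)
    exact ⟨|w a|, ha⟩
  obtain ⟨e, heabs, heq⟩ : ∃ e : ℤ, |e| ≤ 1 ∧ 0 < e * q := by
    rcases lt_or_gt_of_ne hq with h | h
    · exact ⟨-1, by simp, by linarith⟩
    · exact ⟨1, by simp, by linarith⟩
  obtain ⟨B, hB⟩ := exists_basis (i := (0 : Fin 5)) (j := 1) (k := 2) (by decide) (by decide)
    (by decide) hR F b (gb := gb) hb (AddMonoidHom.fst ℤ ℤ)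
    (e • AddMonoidHom.snd ℤ ℤ + C • AddMonoidHom.fst ℤ ℤ) (fun _ => rfl) rfl
    (by
      intro a
      have h1 : (e • AddMonoidHom.snd ℤ ℤ + C • AddMonoidHom.fst ℤ ℤ) (omF w q (some a)) =
        e * w a + C := by simp [omF]
      rw [h1]
      have h2 : |e * w a| ≤ C := by
        rw [abs_mul]
        exact (mul_le_mul heabs (hC a) (abs_nonneg _) zero_le_one).trans (by rw [one_mul])
      have h3 := neg_abs_le (e * w a)
      linarith)
    (by
      have h1 : (e • AddMonoidHom.snd ℤ ℤ + C • AddMonoidHom.fst ℤ ℤ) (omF w q none) =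
        e * q := by simp [omF]
      rw [h1]
      exact heq)
  exact ⟨B, gb, hB⟩

end Pool.Agent.Lib.MP_745d3a_ag.FM
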